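import Pool.Agent.U980.PI.Mono

/-!
# The Penrose inequality with linear momentum
-/

set_option autoImplicit false

namespace Pool.Agent.U980.PI

open scoped BigOperators Topology
open Matrix Filter Set MeasureTheory
open Pool.Agent.K4H63.PI

/-- The derivative of the quasilocal quantities on an untrapped sphere on which `tr_S h` is
constant. -/
theorem deriv_signs {φ : ℝ → ℝ} (hφ : Good φ) {h : E → Matrix (Fin 3) (Fin 3) ℝ} (H : Tensor h)
    {r : ℝ} (hr : 0 < r) {q q' : ℝ} (hq : ∀ w : E, ‖w‖ = 1 → qq h (r • w) = q)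
    (hq' : ∀ w : E, ‖w‖ = 1 → dr (qq h) (r • w) = q')
    (hdec : ∀ w : E, ‖w‖ = 1 → momentumNorm (metric φ) h (r • w) ≤ energy (metric φ) h (r • w))
    (hun : |r * q| < 2 * (φ r) ^ 2 * pp φ r) :
    ∃ F' Ψ' : ℝ, HasDerivAt (FF φ (sphAvg (qq h))) F' r ∧ HasDerivAt (PsiF φ h) Ψ' r ∧
      0 ≤ F' ∧ (0 < FF φ (sphAvg (qq h)) r → 0 ≤ PsiF φ h r → 0 ≤ Ψ') := by
  have hP := hφ.pos r hr
  have hy : 0 < pp φ r := by
    have h1 : 0 < 2 * (φ r) ^ 2 * pp φ r := (abs_nonneg _).trans_lt hun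
    exact pos_of_mul_pos_right h1 (by positivity)
  set p : E := r • (EuclideanSpace.single 0 1 : E) with hpdef
  have hpn : ‖p‖ = r := ray_norm (by simp) hr
  have hqa : sphAvg (qq h) r = q := by
    rw [sphAvg_congr (G := fun _ => q) hq, sphAvg_const]
  have hqa' : sphAvg (dr (qq h)) r = q' := by
    rw [sphAvg_congr (G := fun _ => q') hq', sphAvg_const]
  set σ := r * q / (2 * (φ r) ^ 2 * pp φ r) with hσdef
  have hσ : 2 * (φ r) ^ 2 * pp φ r * σ = r * q := by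
    rw [hσdef]; field_simp
  have hσ1 : σ ^ 2 ≤ 1 := by
    have h1 : |σ| ≤ 1 := by
      rw [hσdef, abs_div, abs_of_pos (show 0 < 2 * (φ r) ^ 2 * pp φ r by positivity),
        div_le_one (by positivity)]
      exact hun.le
    rw [← sq_abs]
    nlinarith [abs_nonneg σ]
  have hT := TT_nonneg hφ H hr hq hq' hdec hpn hσ hσ1
  set T := TT φ p q q' σ r with hTdef
  have hdF := hasDerivAt_FF hφ hr hpn (sphAvg_hasDerivAt H.qq_smooth hr)
  rw [hqa, hqa'] at hdF
  have hFe : r ^ 2 / (2 * (φ r) ^ 2) *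
      (pp φ r * ((φ r) ^ 8 * scal (metric φ) p) + r * q * q' +
        (3 / 2 - r ^ 2 * psi φ r / 2) * q ^ 2) = r ^ 2 / (2 * (φ r) ^ 2) * (pp φ r * T) := by
    congr 1
    have e1 : pp φ r * T = pp φ r * ((φ r) ^ 8 * scal (metric φ) p) + pp φ r * q ^ 2 / 2 +
        (2 * (φ r) ^ 2 * pp φ r * σ) * (q / r + q' - r * psi φ r * q) := by
      rw [hTdef]
      unfold TT
      ring
    rw [e1, hσ]
    unfold pp
    field_simp
    ring
  rw [hFe] at hdF
  have hdΨ := PsiF_hasDerivAt hφ H hr hdF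
  refine ⟨_, _, hdF, hdΨ, by positivity, fun hF0 hΨ0 => ?_⟩
  set F := FF φ (sphAvg (qq h)) r with hFdef
  set P := φ r with hPdef
  set y := pp φ r with hydef
  set BB := ∑ j, sphAvg (mixed h j) r * sphAvg (dr (mixed h j)) r with hBB
  have hqσ : r * q / (2 * P ^ 2) = y * σ := by
    rw [hσdef]; field_simp
  have hFv : F = P ^ 2 * r * (1 - y ^ 2) + r ^ 3 * q ^ 2 / (4 * P ^ 2) := by
    rw [hFdef]
    unfold FF YY
    rw [hqa]
  have hFσ : F = P ^ 2 * r * (1 - y ^ 2 * (1 - σ ^ 2)) := by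
    have e1 : r ^ 3 * q ^ 2 / (4 * P ^ 2) = P ^ 2 * r * (r * q / (2 * P ^ 2)) ^ 2 := by
      field_simp
      ring
    rw [hFv, e1, hqσ]
    ring
  have hBJ : BJ φ h r = y * BB + B2 h r / r * (y ^ 2 + 2 * y - 1) := by
    unfold BJ
    simp only [transport hφ H hr hq hq']
    rw [hBB, Finset.mul_sum]
    unfold B2
    rw [Finset.sum_div, Finset.sum_mul, ← Finset.sum_add_distrib]
    refine Finset.sum_congr rfl fun j _ => ?_
    rw [← hydef]
    ring
  have key := psi_alg (P := P) (r := r) (y := y) (q := q) (F := F)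
    (F' := r ^ 2 / (2 * P ^ 2) * (y * T)) (b2 := B2 h r) (BB := BB) (BJ := BJ φ h r)
    (ps := psi φ r) hP hr hy rfl hFv hBJ
  have hs := sphere_sign hφ H hr hq hq' hdec hpn hσ hσ1 hF0 hFσ hΨ0
  rw [← hTdef] at hs
  refine nonneg_of_mul_nonneg_right ?_ hy
  rw [key, hqσ]
  have e2 : y * (r ^ 2 / (2 * P ^ 2) * (y * T)) * (2 * F + r ^ 3 * B2 h r / P ^ 2) -
      3 * r ^ 2 * y ^ 2 / P ^ 2 * B2 h r * F + 2 * r ^ 3 * B2 h r * (y * σ) ^ 2 -
      2 * r ^ 4 * (1 - F / (P ^ 2 * r)) * BJ φ h r =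
      r ^ 2 * y ^ 2 / P ^ 2 * (T * (F + r ^ 3 * B2 h r / (2 * P ^ 2)) - 3 * B2 h r * F +
        2 * r * P ^ 2 * B2 h r * σ ^ 2 - 2 * r ^ 2 * P ^ 2 * (1 - σ ^ 2) * BJ φ h r) := by
    have e3 : 1 - F / (P ^ 2 * r) = y ^ 2 * (1 - σ ^ 2) := by
      rw [hFσ]
      field_simp
      ring
    rw [e3]
    field_simp
  rw [e2]
  exact mul_nonneg (by positivity) hs

theorem mixed_bound {h : E → Matrix (Fin 3) (Fin 3) ℝ} {x : E} (hx : x ≠ 0) {c : ℝ}
    (hc : ∀ i j, |h x i j| ≤ c) (i : Fin 3) : |mixed h i x| ≤ 12 * c := by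
  have hc0 : 0 ≤ c := (abs_nonneg _).trans (hc 0 0)
  have h1 : |∑ j, h x i j * (x j / ‖x‖)| ≤ 3 * c := by
    refine (Finset.abs_sum_le_sum_abs _ _).trans ?_
    refine (Finset.sum_le_sum (g := fun _ => c) fun j _ => ?_).trans (by simp)
    rw [abs_mul]
    calc |h x i j| * |x j / ‖x‖| ≤ c * 1 :=
          mul_le_mul (hc i j) (unit_le_one hx j) (abs_nonneg _) hc0
      _ = c := by ring
  have h2 : |hrad h x| ≤ 9 * c := by
    unfold hrad
    refine (Finset.abs_sum_le_sum_abs _ _).trans ?_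
    have : ∀ i : Fin 3, |∑ j, h x i j * (x i / ‖x‖) * (x j / ‖x‖)| ≤ 3 * c := by
      intro i
      refine (Finset.abs_sum_le_sum_abs _ _).trans ?_
      refine (Finset.sum_le_sum (g := fun _ => c) fun j _ => ?_).trans (by simp)
      rw [abs_mul, abs_mul]
      calc |h x i j| * |x i / ‖x‖| * |x j / ‖x‖| ≤ c * 1 * 1 :=
            mul_le_mul (mul_le_mul (hc i j) (unit_le_one hx i) (abs_nonneg _) hc0)
              (unit_le_one hx j) (abs_nonneg _) (by positivity)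
        _ = c := by ring
    refine (Finset.sum_le_sum fun i _ => this i).trans ?_
    simp
    linarith
  have h3 : |hrad h x * (x i / ‖x‖)| ≤ 9 * c := by
    rw [abs_mul]
    calc |hrad h x| * |x i / ‖x‖| ≤ 9 * c * 1 :=
          mul_le_mul h2 (unit_le_one hx i) (abs_nonneg _) (by positivity)
      _ = 9 * c := by ring
  unfold mixed
  calc |∑ j, h x i j * (x j / ‖x‖) - hrad h x * (x i / ‖x‖)| ≤
      |∑ j, h x i j * (x j / ‖x‖)| + |hrad h x * (x i / ‖x‖)| := abs_sub _ _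
    _ ≤ 12 * c := by linarith

theorem B2_bound {h : E → Matrix (Fin 3) (Fin 3) ℝ} (H : Tensor h) {C : ℝ}
    (hC : ∀ x : E, 1 ≤ ‖x‖ → ∀ i j, |h x i j| ≤ C / ‖x‖ ^ 2) {r : ℝ} (hr : 1 ≤ r) :
    B2 h r ≤ 3 * (12 * C / r ^ 2) ^ 2 := by
  have h0 : 0 < r := by linarith
  have h1 : ∀ i, |sphAvg (mixed h i) r| ≤ 12 * C / r ^ 2 := by
    intro i
    have h2 := sphAvg_abs_le (F := mixed h i) (G := fun _ => 12 * C / r ^ 2)
      (mixed_contDiffOn H i).continuousOn continuousOn_const h0 (fun w hw => by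
        have h2 := hC (r • w) (by rw [ray_norm hw h0]; exact hr)
        rw [ray_norm hw h0] at h2
        calc |mixed h i (r • w)| ≤ 12 * (C / r ^ 2) := mixed_bound (ray_ne hw h0) h2 i
          _ = 12 * C / r ^ 2 := by ring)
    rwa [sphAvg_const] at h2
  unfold B2
  refine (Finset.sum_le_sum (g := fun _ => (12 * C / r ^ 2) ^ 2) fun i _ => ?_).trans
    (by simp)
  rw [← sq_abs]
  exact pow_le_pow_left₀ (abs_nonneg _) (h1 i) 2

theorem tendsto_r3B2 {h : E → Matrix (Fin 3) (Fin 3) ℝ} (H : Tensor h) {C : ℝ}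
    (hC : ∀ x : E, 1 ≤ ‖x‖ → ∀ i j, |h x i j| ≤ C / ‖x‖ ^ 2) :
    Tendsto (fun r => r ^ 3 * B2 h r) atTop (𝓝 0) := by
  have h3 : Tendsto (fun r : ℝ => 3 * (12 * C) ^ 2 * r⁻¹) atTop (𝓝 (3 * (12 * C) ^ 2 * 0)) :=
    tendsto_inv_atTop_zero.const_mul _
  rw [mul_zero] at h3
  refine squeeze_zero' ?_ ?_ h3
  · filter_upwards [eventually_ge_atTop 1] with r hr
    have := B2_nonneg h r
    positivity
  · filter_upwards [eventually_ge_atTop 1] with r hr
    have h0 : 0 < r := by linarith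
    calc r ^ 3 * B2 h r ≤ r ^ 3 * (3 * (12 * C / r ^ 2) ^ 2) :=
          mul_le_mul_of_nonneg_left (B2_bound H hC hr) (by positivity)
      _ = 3 * (12 * C) ^ 2 * r⁻¹ := by field_simp

/-- The Penrose inequality with linear momentum: coordinate form. -/
theorem momentum_theorem {φ : ℝ → ℝ} {h : E → Matrix (Fin 3) (Fin 3) ℝ} {m : ℝ}
    {P : Fin 3 → ℝ} (hφ : Good φ) (H : Tensor h) (flat : FlatEnd φ m) (decay : Decay h)
    (mom : ∀ i, Tendsto (fun r => r ^ 2 * sphAvg (fun x => mixed h i x - qq h x * un i x) r / 2)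
      atTop (𝓝 (P i))) {r₁ : ℝ} (hr₁ : 0 < r₁)
    (dec : ∀ x : E, r₁ ≤ ‖x‖ → momentumNorm (metric φ) h x ≤ energy (metric φ) h x)
    (cond : ∀ r : ℝ, r₁ ≤ r → (∀ w : E, ‖w‖ = 1 → |trS φ h (r • w)| ≤ sphereH φ r) →
      ∃ c, ∀ w : E, ‖w‖ = 1 → trS φ h (r • w) = c)
    (trapped : ∃ w : E, ‖w‖ = 1 ∧ sphereH φ r₁ ≤ |trS φ h (r₁ • w)|) :
    ∃ r₀, r₁ ≤ r₀ ∧ Real.sqrt (sphereArea φ r₀ / (16 * Real.pi)) ≤
      Real.sqrt (m ^ 2 - ∑ i, P i ^ 2) := by
  obtain ⟨C, hC⟩ := decay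
  have cQ := H.qq_smooth.continuousOn
  have hbdw : ∀ r : ℝ, 1 ≤ r → ∀ w : E, ‖w‖ = 1 → |qq h (r • w)| ≤ 12 * C / r ^ 2 := by
    intro r hr w hw
    have h0 : 0 < r := by linarith
    have h2 := hC (r • w) (by rw [ray_norm hw h0]; exact hr)
    rw [ray_norm hw h0] at h2
    calc |qq h (r • w)| ≤ 12 * (C / r ^ 2) := qq_bound (ray_ne hw h0) h2
      _ = 12 * C / r ^ 2 := by ring
  have hbd : ∀ r : ℝ, 1 ≤ r → |sphAvg (qq h) r| ≤ 12 * C / r ^ 2 := by
    intro r hr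
    have h0 : 0 < r := by linarith
    have h1 := sphAvg_abs_le (F := qq h) (G := fun _ => 12 * C / r ^ 2) cQ continuousOn_const h0
      (hbdw r hr)
    rwa [sphAvg_const] at h1
  have hpk0 : ∀ r, 0 < r → 0 ≤ peak h r := by
    intro r hr
    obtain ⟨⟨w, hw, h1⟩, _⟩ := peak_spec H hr
    rw [h1]; exact abs_nonneg _
  have hbdp : ∀ r : ℝ, 1 ≤ r → |peak h r| ≤ 12 * C / r ^ 2 := by
    intro r hr
    have h0 : 0 < r := by linarith
    obtain ⟨⟨w, hw, h1⟩, _⟩ := peak_spec H h0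
    rw [abs_of_nonneg (hpk0 r h0), h1]
    exact hbdw r hr w hw
  have hlimF : Tendsto (FF φ (sphAvg (qq h))) atTop (𝓝 (2 * m)) := by
    have := (flat.YY hφ).add (tendsto_sq_term flat.one hbd)
    rw [add_zero] at this
    exact this
  have hS : ∀ r : ℝ, 0 < r → ∀ w : E, ‖w‖ = 1 → (|trS φ h (r • w)| * ((φ r) ^ 4 * r) =
      r * |qq h (r • w)| ∧ sphereH φ r * ((φ r) ^ 4 * r) = 2 * (φ r) ^ 2 * pp φ r) := by
    intro r hr w hw
    have hp := hφ.pos r hr
    constructor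
    · unfold trS
      rw [ray_norm hw hr, abs_mul, abs_of_pos (show (0:ℝ) < ((φ r) ^ 4)⁻¹ by positivity)]
      field_simp
    · rw [sphereH_eq hφ hr]
      field_simp
  obtain ⟨r₀, h10, h0eq, hgt⟩ := last_trapped hφ (q := peak h) hr₁
    (fun r hr => peak_continuousAt H hr)
    (by
      obtain ⟨w, hw, ht⟩ := trapped
      obtain ⟨u1, u2⟩ := hS r₁ hr₁ w hw
      have hp := hφ.pos r₁ hr₁
      rw [← u2, abs_mul, abs_of_pos hr₁, abs_of_nonneg (hpk0 r₁ hr₁)]
      refine (mul_le_mul_of_nonneg_right ht (by positivity)).trans ?_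
      rw [u1]
      exact mul_le_mul_of_nonneg_left ((peak_spec H hr₁).2 w hw) hr₁.le)
    (flat.pp hφ) (tendsto_X flat.one hbdp)
  have h00 : 0 < r₀ := hr₁.trans_le h10
  -- `qq h` is constant on the spheres outside `r₀`
  have hconst : ∀ r, r₀ < r → ∀ w : E, ‖w‖ = 1 → qq h (r • w) = sphAvg (qq h) r := by
    intro r hr w hw
    have h0 := h00.trans hr
    have hp := hφ.pos r h0
    have hun : ∀ w : E, ‖w‖ = 1 → |trS φ h (r • w)| ≤ sphereH φ r := by
      intro w hw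
      obtain ⟨u1, u2⟩ := hS r h0 w hw
      refine le_of_mul_le_mul_right ?_ (show 0 < (φ r) ^ 4 * r by positivity)
      rw [u1, u2]
      have := hgt r hr
      rw [abs_mul, abs_of_pos h0, abs_of_nonneg (hpk0 r h0)] at this
      exact (mul_le_mul_of_nonneg_left ((peak_spec H h0).2 w hw) h0.le).trans this.le
    obtain ⟨c, hc⟩ := cond r (h10.trans hr.le) hun
    have h1 : ∀ v : E, ‖v‖ = 1 → qq h (r • v) = (φ r) ^ 4 * c := by
      intro v hv
      have := hc v hv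
      unfold trS at this
      rw [ray_norm hv h0] at this
      field_simp at this
      linarith
    rw [h1 w hw, sphAvg_congr (G := fun _ => (φ r) ^ 4 * c) h1, sphAvg_const]
  have hpk : ∀ r, r₀ < r → peak h r = |sphAvg (qq h) r| := by
    intro r hr
    obtain ⟨⟨w, hw, h1⟩, _⟩ := peak_spec H (h00.trans hr)
    rw [h1, hconst r hr w hw]
  have hconst' : ∀ r, r₀ < r → ∀ w : E, ‖w‖ = 1 → dr (qq h) (r • w) = sphAvg (dr (qq h)) r := by
    intro r hr w hw
    have h0 := h00.trans hr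
    have d1 : HasDerivAt (fun s : ℝ => qq h (s • w)) (dr (qq h) (r • w)) r :=
      hasDerivAt_ray hw h0 (H.qq_diff (ray_ne hw h0))
    have d2 := sphAvg_hasDerivAt H.qq_smooth h0
    refine d1.unique (d2.congr_of_eventuallyEq ?_)
    filter_upwards [Ioi_mem_nhds hr] with s hs
    exact hconst s hs w hw
  -- the value at `r₀`
  have hq0 : |sphAvg (qq h) r₀| = peak h r₀ := by
    have c1 : Tendsto (fun r => |sphAvg (qq h) r|) (𝓝[>] r₀) (𝓝 |sphAvg (qq h) r₀|) :=
      ((sphAvg_continuousAt cQ h00).abs.tendsto).mono_left nhdsWithin_le_nhds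
    have c2 : Tendsto (peak h) (𝓝[>] r₀) (𝓝 (peak h r₀)) :=
      ((peak_continuousAt H h00).tendsto).mono_left nhdsWithin_le_nhds
    have c3 : Tendsto (peak h) (𝓝[>] r₀) (𝓝 |sphAvg (qq h) r₀|) := by
      refine c1.congr' ?_
      filter_upwards [self_mem_nhdsWithin] with r hr
      exact (hpk r hr).symm
    exact tendsto_nhds_unique c3 c2
  have hpos : 0 < φ r₀ := hφ.pos r₀ h00
  have hF0 : FF φ (sphAvg (qq h)) r₀ = (φ r₀) ^ 2 * r₀ := by
    have h5 : (2 * (φ r₀) ^ 2 * pp φ r₀) ^ 2 = (r₀ * sphAvg (qq h) r₀) ^ 2 := by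
      rw [h0eq, sq_abs, ← hq0, mul_pow, sq_abs, mul_pow]
    unfold FF YY
    field_simp
    linear_combination -h5
  have hΨ0 : PsiF φ h r₀ = ((φ r₀) ^ 2 * r₀) ^ 2 := by
    unfold PsiF
    rw [hF0]
    field_simp
    ring
  -- monotonicity
  have hsig := fun (r : ℝ) (hr : r₀ < r) => deriv_signs hφ H (h00.trans hr) (hconst r hr)
    (hconst' r hr) (fun w hw => dec _ (by
      rw [ray_norm hw (h00.trans hr)]
      exact h10.trans hr.le)) (by
      have := hgt r hr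
      have h0 := h00.trans hr
      rw [abs_mul, abs_of_nonneg (hpk0 r h0), hpk r hr, ← abs_mul] at this
      exact this)
  have hFmono : ∀ r, r₀ ≤ r → (φ r₀) ^ 2 * r₀ ≤ FF φ (sphAvg (qq h)) r := by
    have hmono : MonotoneOn (FF φ (sphAvg (qq h))) (Ici r₀) := by
      apply monotoneOn_of_deriv_nonneg (convex_Ici r₀)
      · intro r hr
        have h0 := h00.trans_le hr
        exact (hasDerivAt_FF hφ h0 (ray_norm (ω := EuclideanSpace.single 0 1) (by simp) h0)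
          (sphAvg_hasDerivAt H.qq_smooth h0)).continuousAt.continuousWithinAt
      · intro r hr
        rw [interior_Ici] at hr
        obtain ⟨F', Ψ', d1, _⟩ := hsig r hr
        exact d1.differentiableAt.differentiableWithinAt
      · intro r hr
        rw [interior_Ici] at hr
        obtain ⟨F', Ψ', d1, _, d3, _⟩ := hsig r hr
        rw [d1.deriv]
        exact d3
    intro r hr
    rw [← hF0]
    exact hmono (mem_Ici.2 le_rfl) (mem_Ici.2 hr) hr
  have hΨmono : ∀ r, r₀ ≤ r → PsiF φ h r₀ ≤ PsiF φ h r := by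
    refine pos_mono (f' := deriv (PsiF φ h)) ?_ ?_ ?_ ?_
    · intro r hr
      have h0 := h00.trans_le hr
      exact (PsiF_hasDerivAt hφ H h0 (hasDerivAt_FF hφ h0
        (ray_norm (ω := EuclideanSpace.single 0 1) (by simp) h0)
        (sphAvg_hasDerivAt H.qq_smooth h0))).continuousAt
    · intro r hr
      obtain ⟨F', Ψ', _, d2, _⟩ := hsig r hr
      exact d2.differentiableAt.hasDerivAt
    · rw [hΨ0]; positivity
    · intro r hr hr0
      obtain ⟨F', Ψ', _, d2, _, d4⟩ := hsig r hr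
      rw [d2.deriv]
      exact d4 (lt_of_lt_of_le (by positivity) (hFmono r hr.le)) hr0
  -- the limit
  have hlimB : Tendsto (fun r => r ^ 4 * B2 h r) atTop (𝓝 (4 * ∑ i, P i ^ 2)) := by
    have h1 : Tendsto (fun r => ∑ i, (2 * (r ^ 2 * sphAvg (fun x => mixed h i x -
        qq h x * un i x) r / 2)) ^ 2) atTop (𝓝 (∑ i, (2 * P i) ^ 2)) :=
      tendsto_finsetSum _ fun i _ => ((mom i).const_mul 2).pow 2
    have h2 : ∑ i, (2 * P i) ^ 2 = 4 * ∑ i, P i ^ 2 := by
      rw [Finset.mul_sum]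
      exact Finset.sum_congr rfl fun i _ => by ring
    rw [h2] at h1
    refine h1.congr' ?_
    filter_upwards [eventually_gt_atTop r₀] with r hr
    have h0 := h00.trans hr
    unfold B2
    rw [Finset.mul_sum]
    refine Finset.sum_congr rfl fun i _ => ?_
    have h3 : sphAvg (fun x => mixed h i x - qq h x * un i x) r = sphAvg (mixed h i) r := by
      rw [sphAvg_congr (G := fun x => mixed h i x - sphAvg (qq h) r * un i x) (fun w hw => by
        rw [hconst r hr w hw]),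
        sphAvg_sub (F := mixed h i) (G := fun x => sphAvg (qq h) r * un i x)
          (mixed_contDiffOn H i).continuousOn (continuousOn_const.mul (un_cont i)) h0,
        sphAvg_mul, sphAvg_un i h0, mul_zero, sub_zero]
    rw [h3]
    ring
  have hlimΨ : Tendsto (PsiF φ h) atTop (𝓝 (4 * (m ^ 2 - ∑ i, P i ^ 2))) := by
    have h1 := ((hlimF.pow 2).add ((hlimF.mul (tendsto_r3B2 H hC)).div (flat.one.pow 2)
      (by norm_num))).sub hlimB
    have e : (2 * m) ^ 2 + 2 * m * 0 / 1 ^ 2 - 4 * ∑ i, P i ^ 2 =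
        4 * (m ^ 2 - ∑ i, P i ^ 2) := by ring
    rw [e] at h1
    refine h1.congr fun r => ?_
    unfold PsiF
    simp only [Pi.div_apply]
    ring
  have hfin : PsiF φ h r₀ ≤ 4 * (m ^ 2 - ∑ i, P i ^ 2) := by
    refine ge_of_tendsto hlimΨ ?_
    filter_upwards [eventually_ge_atTop r₀] with r hr
    exact hΨmono r hr
  refine ⟨r₀, h10, ?_⟩
  rw [sqrt_area hφ h00]
  refine Real.le_sqrt_of_sq_le ?_
  rw [hΨ0] at hfin
  linarith

end Pool.Agent.U980.PI
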