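import Pool.Agent.K4H63.PI.Peak

/-!
# The mass function with the maximum of `|tr_S h|` over a closed set of directions
-/

set_option autoImplicit false

namespace Pool.Agent.U980.PI

open scoped BigOperators Topology
open Matrix Filter Set MeasureTheory
open Pool.Agent.K4H63.PI

/-- The maximum of `|qq h|` over the directions in `K` on the centred sphere of radius `r`. -/
noncomputable def peakK (K : Set (Metric.sphere (0 : E) 1)) (h : E → Matrix (Fin 3) (Fin 3) ℝ)
    (r : ℝ) : ℝ :=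
  sSup ((fun ω : Metric.sphere (0 : E) 1 => |qq h (r • (ω : E))|) '' K)

theorem peakK_spec {K : Set (Metric.sphere (0 : E) 1)} (hK : IsCompact K) (hne : K.Nonempty)
    {h : E → Matrix (Fin 3) (Fin 3) ℝ} (H : Tensor h) {r : ℝ} (hr : 0 < r) :
    (∃ w ∈ K, peakK K h r = |qq h (r • (w : E))|) ∧
      ∀ w ∈ K, |qq h (r • (w : E))| ≤ peakK K h r := by
  have hc : ContinuousOn (fun ω : Metric.sphere (0 : E) 1 => |qq h (r • (ω : E))|) K :=
    (sph_cont H.qq_smooth.continuousOn hr).abs.continuousOn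
  obtain ⟨ω, hω, h1, h2⟩ := hK.exists_sSup_image_eq_and_ge hne hc
  refine ⟨⟨ω, hω, h1⟩, fun w hw => ?_⟩
  have := h2 w hw
  unfold peakK
  rw [h1]
  exact this

theorem peakK_continuousAt {K : Set (Metric.sphere (0 : E) 1)} (hK : IsCompact K)
    {h : E → Matrix (Fin 3) (Fin 3) ℝ} (H : Tensor h) {r : ℝ} (hr : 0 < r) :
    ContinuousAt (peakK K h) r := by
  have h1 : Continuous (fun p : ℝ × Metric.sphere (0 : E) 1 =>
      |qq h (max p.1 (r / 2) • (p.2 : E))|) := by
    refine Continuous.abs ?_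
    refine H.qq_smooth.continuousOn.comp_continuous (by fun_prop) ?_
    rintro ⟨s, ω⟩
    exact ray_ne (sphere_norm ω) (lt_of_lt_of_le (by positivity) (le_max_right _ _))
  have h2 := IsCompact.continuous_sSup (K := K)
    (f := fun (s : ℝ) (ω : Metric.sphere (0 : E) 1) => |qq h (max s (r / 2) • (ω : E))|)
    hK h1
  refine h2.continuousAt.congr ?_
  filter_upwards [Ioi_mem_nhds (show r / 2 < r by linarith)] with s hs
  unfold peakK
  rw [max_eq_left (le_of_lt hs)]

theorem peakK_theorem {φ : ℝ → ℝ} {h : E → Matrix (Fin 3) (Fin 3) ℝ} {m : ℝ} (hφ : Good φ)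
    (H : Tensor h) (flat : FlatEnd φ m) (decay : Decay h) {K : Set (Metric.sphere (0 : E) 1)}
    (hK : IsCompact K) (hne : K.Nonempty) {r₁ : ℝ} (hr₁ : 0 < r₁)
    (dec : ∀ r : ℝ, r₁ ≤ r → ∀ w ∈ K,
      momentumNorm (metric φ) h (r • (w : E)) ≤ energy (metric φ) h (r • (w : E)))
    (cond : ∀ r : ℝ, r₁ ≤ r → (∀ w ∈ K, |trS φ h (r • (w : E))| ≤ sphereH φ r) →
      ∃ w ∈ K, (∀ v ∈ K, |trS φ h (r • (v : E))| ≤ |trS φ h (r • (w : E))|) ∧
        0 ≤ trS φ h (r • (w : E)) * divS φ h (r • (w : E)) +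
          meanCurv φ (r • (w : E)) * transS φ h (r • (w : E)) / 2)
    (trapped : ∃ w ∈ K, sphereH φ r₁ ≤ |trS φ h (r₁ • (w : E))|) :
    ∃ r₀, r₁ ≤ r₀ ∧ Real.sqrt (sphereArea φ r₀ / (16 * Real.pi)) ≤ m := by
  obtain ⟨C, hC⟩ := decay
  have hbd : ∀ r : ℝ, 1 ≤ r → |peakK K h r| ≤ 12 * C / r ^ 2 := by
    intro r hr
    have h0 : 0 < r := by linarith
    obtain ⟨⟨w, hwK, h1⟩, _⟩ := peakK_spec hK hne H h0
    have hw := sphere_norm w
    rw [h1, abs_abs]
    have h2 := hC (r • w) (by rw [ray_norm hw h0]; exact hr)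
    rw [ray_norm hw h0] at h2
    calc |qq h (r • (w : E))| ≤ 12 * (C / r ^ 2) := qq_bound (ray_ne hw h0) h2
      _ = 12 * C / r ^ 2 := by ring
  have hlim : Tendsto (FF φ (peakK K h)) atTop (𝓝 (2 * m)) := by
    have := (flat.YY hφ).add (tendsto_sq_term flat.one hbd)
    rw [add_zero] at this
    exact this
  have hpk0 : ∀ r, 0 < r → 0 ≤ peakK K h r := by
    intro r hr
    obtain ⟨⟨w, hwK, h1⟩, _⟩ := peakK_spec hK hne H hr
    rw [h1]; exact abs_nonneg _
  have hS : ∀ r : ℝ, 0 < r → ∀ w : E, ‖w‖ = 1 → (|trS φ h (r • w)| * ((φ r) ^ 4 * r) =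
      r * |qq h (r • (w : E))| ∧ sphereH φ r * ((φ r) ^ 4 * r) = 2 * (φ r) ^ 2 * pp φ r) := by
    intro r hr w hw
    have hp := hφ.pos r hr
    constructor
    · unfold trS
      rw [ray_norm hw hr, abs_mul, abs_of_pos (show (0:ℝ) < ((φ r) ^ 4)⁻¹ by positivity)]
      field_simp
    · rw [sphereH_eq hφ hr]
      field_simp
  obtain ⟨r₀, h10, h0eq, hgt⟩ := last_trapped hφ (q := peakK K h) hr₁
    (fun r hr => peakK_continuousAt hK H hr)
    (by
      obtain ⟨w, hwK, ht⟩ := trapped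
      have hw := sphere_norm w
      obtain ⟨u1, u2⟩ := hS r₁ hr₁ w hw
      have hp := hφ.pos r₁ hr₁
      rw [← u2, abs_mul, abs_of_pos hr₁, abs_of_nonneg (hpk0 r₁ hr₁)]
      refine (mul_le_mul_of_nonneg_right ht (by positivity)).trans ?_
      rw [u1]
      exact mul_le_mul_of_nonneg_left ((peakK_spec hK hne H hr₁).2 w hwK) hr₁.le)
    (flat.pp hφ) (tendsto_X flat.one hbd)
  have h00 : 0 < r₀ := hr₁.trans_le h10
  have hge : ∀ r, r₀ ≤ r → r * peakK K h r ≤ 2 * (φ r) ^ 2 * pp φ r := by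
    intro r hr
    have h0 := h00.trans_le hr
    rcases eq_or_lt_of_le hr with he | hlt
    · rw [← he, h0eq, abs_mul, abs_of_pos h00, abs_of_nonneg (hpk0 r₀ h00)]
    · have := hgt r hlt
      rw [abs_mul, abs_of_pos h0, abs_of_nonneg (hpk0 r h0)] at this
      exact this.le
  have hFc : ∀ r, 0 < r → ContinuousAt (FF φ (peakK K h)) r := by
    intro r hr
    have hp := hφ.pos r hr
    have c1 := peakK_continuousAt hK H hr
    exact (((hφ.cont hr).pow 2).mul continuousAt_id).mul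
      (continuousAt_const.sub ((hφ.pp_cont hr).pow 2)) |>.add
      (((continuousAt_id.pow 3).mul (c1.pow 2)).div
        (continuousAt_const.mul ((hφ.cont hr).pow 2)) (by positivity))
  have hmono : ∀ b, r₀ ≤ b → FF φ (peakK K h) r₀ ≤ FF φ (peakK K h) b := by
    intro b hb
    refine dini_mono hb (fun r hr => (hFc r (h00.trans_le hr.1)).continuousWithinAt) ?_
    intro r hr
    have h0 := h00.trans_le hr.1
    have hp := hφ.pos r h0
    have hrr : r₁ ≤ r := h10.trans hr.1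
    have hun : ∀ w ∈ K, |trS φ h (r • (w : E))| ≤ sphereH φ r := by
      intro w hwK
      have hw := sphere_norm w
      obtain ⟨u1, u2⟩ := hS r h0 w hw
      refine le_of_mul_le_mul_right ?_ (show 0 < (φ r) ^ 4 * r by positivity)
      rw [u1, u2]
      exact (mul_le_mul_of_nonneg_left ((peakK_spec hK hne H h0).2 w hwK) h0.le).trans (hge r hr.1)
    obtain ⟨w, hwK, hmaxw, hcw⟩ := cond r hrr hun
    have hw := sphere_norm w
    have hx := ray_ne hw h0
    have hn := ray_norm hw h0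
    have hpk : peakK K h r = |qq h (r • (w : E))| := by
      refine le_antisymm ?_ ((peakK_spec hK hne H h0).2 w hwK)
      obtain ⟨⟨v, hvK, h1⟩, _⟩ := peakK_spec hK hne H h0
      have hv := sphere_norm v
      rw [h1]
      have h2 := mul_le_mul_of_nonneg_right (hmaxw v hvK)
        (show 0 ≤ (φ r) ^ 4 * r by positivity)
      rw [(hS r h0 v hv).1, (hS r h0 w hw).1] at h2
      exact le_of_mul_le_mul_left h2 h0
    have dq : HasDerivAt (fun s : ℝ => qq h (s • (w : E))) (dr (qq h) (r • (w : E))) r :=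
      hasDerivAt_ray hw h0 (H.qq_diff hx)
    refine ⟨FF φ (fun s : ℝ => qq h (s • (w : E))), _, hasDerivAt_FF hφ h0 hn dq, ?_, ?_, ?_⟩
    · have hu' : |‖r • (w : E)‖ * qq h (r • (w : E))| ≤ 2 * (φ ‖r • (w : E)‖) ^ 2 * pp φ ‖r • (w : E)‖ := by
        rw [hn, abs_mul, abs_of_pos h0, ← hpk]
        exact hge r hr.1
      have k1 := key hφ H hx (dec r hrr w hwK) hu'
      have k2 := (cond_iff hφ h hx).1 hcw
      rw [hn] at k1 k2
      refine mul_nonneg (by positivity) ?_
      unfold pp at k2 ⊢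
      linarith
    · unfold FF
      rw [hpk, sq_abs]
    · filter_upwards [self_mem_nhdsWithin] with z hz
      have hz0 : 0 < z := h0.trans hz
      have hpz := hφ.pos z hz0
      have h1 := (peakK_spec hK hne H hz0).2 w hwK
      have h2 : (qq h (z • (w : E))) ^ 2 ≤ (peakK K h z) ^ 2 := by
        rw [← sq_abs (qq h (z • (w : E)))]
        exact pow_le_pow_left₀ (abs_nonneg _) h1 2
      unfold FF
      have h3 : z ^ 3 * (qq h (z • (w : E))) ^ 2 / (4 * (φ z) ^ 2) ≤
          z ^ 3 * (peakK K h z) ^ 2 / (4 * (φ z) ^ 2) :=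
        div_le_div_of_nonneg_right (mul_le_mul_of_nonneg_left h2 (by positivity)) (by positivity)
      linarith
  have hlim2 : FF φ (peakK K h) r₀ ≤ 2 * m := by
    refine ge_of_tendsto hlim ?_
    filter_upwards [eventually_ge_atTop r₀] with r hr
    exact hmono r hr
  refine ⟨r₀, h10, ?_⟩
  rw [sqrt_area hφ h00]
  have hpos : 0 < φ r₀ := hφ.pos r₀ h00
  have h5 : (2 * (φ r₀) ^ 2 * pp φ r₀) ^ 2 = (r₀ * peakK K h r₀) ^ 2 := by
    rw [h0eq, sq_abs]
  have h6 : FF φ (peakK K h) r₀ = (φ r₀) ^ 2 * r₀ := by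
    unfold FF YY
    field_simp
    linear_combination -h5
  rw [h6] at hlim2
  linarith

end Pool.Agent.U980.PI
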