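import Pool.Agent.K4H63.PI.Cases

/-!
# The averaged condition for linear combinations of `h(ν, ν)` and `tr_S h`
-/

set_option autoImplicit false

namespace Pool.Agent.U980.PI

open scoped BigOperators Topology
open Matrix Filter Set MeasureTheory
open Pool.Agent.K4H63.PI

/-- The averaged condition holds if `a h(ν, ν) + b tr_S h` is constant on the sphere, `b > 0`,
`0 ≤ a ≤ 4 b`. -/
theorem avgCond_of_comb {φ : ℝ → ℝ} (hφ : Good φ) {h : E → Matrix (Fin 3) (Fin 3) ℝ}
    (H : Tensor h) {r : ℝ} (hr : 0 < r) {a b : ℝ} (ha : 0 ≤ a) (hb : 0 < b) (hab : a ≤ 4 * b)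
    (hc : ∃ c, ∀ w : E, ‖w‖ = 1 → a * hNN φ h (r • w) + b * trS φ h (r • w) = c) :
    AvgCond φ h r := by
  obtain ⟨c, hc⟩ := hc
  rcases ha.eq_or_lt with h0 | ha0
  · refine avgCond_of_trS hφ H hr ⟨c / b, fun w hw => ?_⟩
    have := hc w hw
    rw [← h0, zero_mul, zero_add] at this
    rw [← this]
    field_simp
  rw [avgCond_iff hφ h hr]
  have hp := hφ.pos r hr
  have cA := H.hrad_smooth.continuousOn
  have cQ := H.qq_smooth.continuousOn
  have cN := H.transverse_cont
  set t : ℝ := (φ r) ^ 4 * c / a with ht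
  set κ : ℝ := b / a with hκ
  have hκ4 : 0 ≤ 2 * κ - 1 / 2 := by
    rw [hκ]
    have : 1 / 4 ≤ b / a := by
      rw [le_div_iff₀ ha0]
      linarith
    linarith
  have hA : ∀ w : E, ‖w‖ = 1 → hrad h (r • w) = t - κ * qq h (r • w) := by
    intro w hw
    have := hc w hw
    unfold hNN trS at this
    rw [ray_norm hw hr] at this
    rw [ht, hκ, ← this]
    field_simp
    ring
  have h1 : sphAvg (hrad h) r = t - κ * sphAvg (qq h) r := by
    rw [sphAvg_congr (G := fun x => t - κ * qq h x) hA,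
      sphAvg_sub (F := fun _ => t) (G := fun x => κ * qq h x) continuousOn_const
        (continuousOn_const.mul cQ) hr, sphAvg_const, sphAvg_mul]
  set p := sphAvg (qq h) r with hpdef
  have h2 := sphAvg_mono (r := r)
    (F := fun x => 2 * hrad h x * qq h x + (qq h x) ^ 2 / 2 - transverse h x)
    (G := fun x => (2 * t - 2 * (2 * κ - 1 / 2) * p) * qq h x + (2 * κ - 1 / 2) * p ^ 2)
    ((((continuousOn_const.mul cA).mul cQ).add ((cQ.pow 2).div_const _)).sub cN)
    ((continuousOn_const.mul cQ).add continuousOn_const) hr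
    (fun w hw => by
      have h3 := transverse_nonneg h (ray_ne hw hr)
      have h4 := mul_nonneg hκ4 (sq_nonneg (qq h (r • w) - p))
      rw [hA w hw]
      nlinarith)
  rw [sphAvg_add (F := fun x => (2 * t - 2 * (2 * κ - 1 / 2) * p) * qq h x)
    (G := fun _ => (2 * κ - 1 / 2) * p ^ 2)
    (continuousOn_const.mul cQ) continuousOn_const hr, sphAvg_mul, sphAvg_const, ← hpdef] at h2
  rw [h1]
  refine h2.trans (le_of_eq ?_)
  ring

end Pool.Agent.U980.PI
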