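import Mathlib

/-!
# Choice of the test weight: elementary inequalities
-/

set_option autoImplicit false

namespace Pool.Agent.U980.PI

/-- The inequality at the end of the choice of the weight. -/
theorem scalar_end {s t : ℝ} (ht0 : 0 ≤ t) (hts : t ≤ s) (hs1 : s ≤ 1) :
    0 ≤ 3 - 9 / 2 * (2 / 3 + 2 * t ^ 2 / 15 + t ^ 3 / 5) + 3 * s * (2 * t / 15 + t ^ 3 / 5) -
      s ^ 2 * (2 / 15 + 2 * t ^ 2 / 35 + t ^ 3 / 7) / 2 + 2 * s / 3 := by
  have hs0 : 0 ≤ s := ht0.trans hts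
  have ht1 : t ≤ 1 := hts.trans hs1
  -- `g t ≥ 0`
  have g : 0 ≤ 3 / 5 - t / 5 - (9 / 10 + 1 / 35) * t ^ 2 + (3 / 5 - 1 / 14) * t ^ 3 := by
    have e : 3 / 5 - t / 5 - (9 / 10 + 1 / 35) * t ^ 2 + (3 / 5 - 1 / 14) * t ^ 3 =
        (1 - t) * (3 / 5 + 2 / 5 * t - 37 / 70 * t ^ 2) := by ring
    rw [e]
    refine mul_nonneg (by linarith) ?_
    nlinarith [mul_nonneg ht0 (sub_nonneg.2 ht1)]
  have h1 : t ^ 2 ≤ s * t := by nlinarith
  have h2 : t ^ 3 ≤ s * t ^ 2 := by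
    have : t ^ 2 * t ≤ t ^ 2 * s := mul_le_mul_of_nonneg_left hts (sq_nonneg _)
    nlinarith
  have h3 : s ^ 2 ≤ s := by nlinarith
  have h4 : s ^ 2 * t ^ 2 ≤ s * t ^ 2 := mul_le_mul_of_nonneg_right h3 (sq_nonneg _)
  have h5 : s ^ 2 * t ^ 3 ≤ s * t ^ 3 := mul_le_mul_of_nonneg_right h3 (by positivity)
  have h6 := mul_nonneg hs0 g
  nlinarith

theorem sq_le_one_bounds {c : ℝ} (hc : c ^ 2 ≤ 1) : -1 ≤ c ∧ c ≤ 1 := by
  constructor <;> nlinarith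

/-- A weight dominating `x (s c + 1 - (f/2) (1 - c²))` is admissible. -/
theorem admissible {f s x Y ω c : ℝ} (hf0 : 0 ≤ f) (hf1 : f ≤ 1) (hs0 : 0 ≤ s) (hs1 : s ≤ 1)
    (hx : 0 ≤ x) (hY : Y ^ 2 * (1 - s ^ 2) = 1 - f) (hc : c ^ 2 ≤ 1)
    (h : x * (s * c + (1 - f / 2 * (1 - c ^ 2))) ≤ ω) :
    0 ≤ ω ∧ (s * ω + x * (1 - s ^ 2) * c) ^ 2 +
      (x * (1 - s ^ 2)) ^ 2 * Y ^ 2 * (1 - c ^ 2) ≤ ω ^ 2 := by
  obtain ⟨c1, c2⟩ := sq_le_one_bounds hc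
  have hz0 : 0 ≤ 1 - c ^ 2 := by linarith
  have h1 : 0 ≤ 1 - f / 2 * (1 - c ^ 2) := by nlinarith [sq_nonneg c]
  have h2 : x * (1 - f / 2 * (1 - c ^ 2)) ≤ ω - s * x * c := by linarith
  have h3 : 0 ≤ x * (1 - f / 2 * (1 - c ^ 2)) := mul_nonneg hx h1
  have hω : 0 ≤ ω := by
    have : 0 ≤ s * c + (1 - f / 2 * (1 - c ^ 2)) := by
      have g1 : f / 2 * (1 - c ^ 2) ≤ 1 / 2 * (1 - c ^ 2) :=
        mul_le_mul_of_nonneg_right (by linarith) hz0
      rcases le_total 0 c with hc0 | hc0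
      · have : 0 ≤ s * c := mul_nonneg hs0 hc0
        nlinarith [sq_nonneg c]
      · have : c ≤ s * c := by nlinarith
        nlinarith
    exact (mul_nonneg hx this).trans h
  refine ⟨hω, ?_⟩
  have h4 : (x * (1 - f / 2 * (1 - c ^ 2))) ^ 2 ≤ (ω - s * x * c) ^ 2 :=
    pow_le_pow_left₀ h3 h2 2
  have h5 : x ^ 2 * (1 - f * (1 - c ^ 2)) ≤ (x * (1 - f / 2 * (1 - c ^ 2))) ^ 2 := by
    have e : (x * (1 - f / 2 * (1 - c ^ 2))) ^ 2 - x ^ 2 * (1 - f * (1 - c ^ 2)) =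
        x ^ 2 * (f / 2 * (1 - c ^ 2)) ^ 2 := by ring
    have : 0 ≤ x ^ 2 * (f / 2 * (1 - c ^ 2)) ^ 2 := by positivity
    linarith
  have h6 : 0 ≤ (1 - s ^ 2) * ((ω - s * x * c) ^ 2 - x ^ 2 * (1 - f * (1 - c ^ 2))) := by
    refine mul_nonneg (by nlinarith) (by linarith)
  have e : ω ^ 2 - ((s * ω + x * (1 - s ^ 2) * c) ^ 2 +
      (x * (1 - s ^ 2)) ^ 2 * Y ^ 2 * (1 - c ^ 2)) =
      (1 - s ^ 2) * ((ω - s * x * c) ^ 2 - x ^ 2 * (1 - f * (1 - c ^ 2))) -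
      x ^ 2 * (1 - s ^ 2) * (1 - c ^ 2) * (Y ^ 2 * (1 - s ^ 2) - (1 - f)) := by
    ring
  rw [hY, sub_self, mul_zero, sub_zero] at e
  linarith

/-- The choice of the weight `a₀ + a₁ c + a₂ c²` and of the constants `Ω`, `t`. -/
theorem exists_weight {f s x Y : ℝ} (hf0 : 0 < f) (hf1 : f ≤ 1) (hs0 : 0 ≤ s) (hs1 : s ≤ 1)
    (hx : 0 < x) (hY : Y ^ 2 * (1 - s ^ 2) = 1 - f) (hG : x ≤ f + x ^ 2 / 2) :
    ∃ a₀ a₁ a₂ Ω t : ℝ, a₀ + a₂ / 3 = f + x ^ 2 / 2 ∧ 0 < Ω ∧ 0 ≤ t ∧ t ≤ 1 ∧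
      (∀ c : ℝ, c ^ 2 ≤ 1 → Ω * (1 + t * c) ≤ a₀ + a₁ * c + a₂ * c ^ 2) ∧
      (∀ c : ℝ, c ^ 2 ≤ 1 → 0 ≤ a₀ + a₁ * c + a₂ * c ^ 2 ∧
        (s * (a₀ + a₁ * c + a₂ * c ^ 2) + x * (1 - s ^ 2) * c) ^ 2 +
        (x * (1 - s ^ 2)) ^ 2 * Y ^ 2 * (1 - c ^ 2) ≤ (a₀ + a₁ * c + a₂ * c ^ 2) ^ 2) ∧
      0 ≤ 6 * Ω - ((6 * Ω) ^ 2 * (2 / 3 + 2 * t ^ 2 / 15 + t ^ 3 / 5) -
        2 * (6 * Ω) * (4 * s * a₂ / x) * (2 * t / 15 + t ^ 3 / 5) +
        (4 * s * a₂ / x) ^ 2 * (2 / 15 + 2 * t ^ 2 / 35 + t ^ 3 / 7)) / (8 * Ω) -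
        2 * s * a₁ / x + 2 * s ^ 2 - 3 * f := by
  set W := f + x ^ 2 / 2 with hW
  have hWf : f ≤ W := by rw [hW]; nlinarith [sq_nonneg x]
  have hW0 : 0 < W := hf0.trans_le hWf
  by_cases hA : x * (1 + s) ≤ W
  · refine ⟨W, 0, 0, W, 0, by ring, hW0, le_rfl, zero_le_one, ?_, ?_, ?_⟩
    · intro c _
      simp
    · intro c hc
      obtain ⟨c1, c2⟩ := sq_le_one_bounds hc
      refine admissible hf0.le hf1 hs0 hs1 hx.le hY hc ?_
      have h1 : s * c ≤ s := by nlinarith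
      have h2 : 0 ≤ f / 2 * (1 - c ^ 2) := by
        have : 0 ≤ 1 - c ^ 2 := by linarith
        positivity
      have h3 : x * (s * c + (1 - f / 2 * (1 - c ^ 2))) ≤ x * (1 + s) :=
        mul_le_mul_of_nonneg_left (by linarith) hx.le
      linarith
    · have e : 6 * W - ((6 * W) ^ 2 * (2 / 3 + 2 * (0:ℝ) ^ 2 / 15 + (0:ℝ) ^ 3 / 5) -
        2 * (6 * W) * (4 * s * 0 / x) * (2 * 0 / 15 + (0:ℝ) ^ 3 / 5) +
        (4 * s * 0 / x) ^ 2 * (2 / 15 + 2 * (0:ℝ) ^ 2 / 35 + (0:ℝ) ^ 3 / 7)) / (8 * W) -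
        2 * s * 0 / x + 2 * s ^ 2 - 3 * f = 3 * W - 3 * f + 2 * s ^ 2 := by
        field_simp
        ring
      rw [e]
      nlinarith [sq_nonneg s]
  · have hA' : W < x * (1 + s) := not_le.1 hA
    have hxf : f / 2 < x := by nlinarith
    set Ω := W - x * f / 6 with hΩ
    have hΩf : f ≤ Ω := by
      rw [hΩ, hW]
      nlinarith [mul_pos hx (show 0 < x / 2 - f / 6 by linarith)]
    have hΩ0 : 0 < Ω := hf0.trans_le hΩf
    by_cases hB : x * (1 + s) ≤ W + x * f / 3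
    · refine ⟨Ω, 0, x * f / 2, Ω, 0, by rw [hΩ]; ring, hΩ0, le_rfl, zero_le_one, ?_, ?_, ?_⟩
      · intro c _
        have : 0 ≤ x * f / 2 * c ^ 2 := by positivity
        linarith
      · intro c hc
        obtain ⟨c1, c2⟩ := sq_le_one_bounds hc
        refine admissible hf0.le hf1 hs0 hs1 hx.le hY hc ?_
        have h1 : s * x * c ≤ s * x := by
          have : 0 ≤ s * x := by positivity
          nlinarith
        rw [hΩ]
        nlinarith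
      · have e : 6 * Ω - ((6 * Ω) ^ 2 * (2 / 3 + 2 * (0:ℝ) ^ 2 / 15 + (0:ℝ) ^ 3 / 5) -
          2 * (6 * Ω) * (4 * s * (x * f / 2) / x) * (2 * 0 / 15 + (0:ℝ) ^ 3 / 5) +
          (4 * s * (x * f / 2) / x) ^ 2 * (2 / 15 + 2 * (0:ℝ) ^ 2 / 35 + (0:ℝ) ^ 3 / 7)) /
            (8 * Ω) - 2 * s * 0 / x + 2 * s ^ 2 - 3 * f =
          3 * Ω - 3 * f + 2 * s ^ 2 - s ^ 2 * f * (f / Ω) / 15 := by
          field_simp
          ring
        rw [e]
        have h1 : f / Ω ≤ 1 := (div_le_one hΩ0).2 hΩf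
        have h2 : s ^ 2 * f * (f / Ω) ≤ s ^ 2 * 1 * 1 := by
          have : 0 ≤ f / Ω := by positivity
          have g : s ^ 2 * f ≤ s ^ 2 * 1 := mul_le_mul_of_nonneg_left hf1 (sq_nonneg _)
          exact mul_le_mul g h1 this (by positivity)
        nlinarith [sq_nonneg s]
    · have hB' : W + x * f / 3 < x * (1 + s) := not_le.1 hB
      set α := x * (1 + s) - W - x * f / 3 with hα
      have hα0 : 0 < α := by rw [hα]; linarith
      set t := α / Ω with ht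
      have ht0 : 0 ≤ t := by positivity
      have hΩt : Ω * t = α := by rw [ht]; field_simp
      have hts : t ≤ s := by
        rw [ht, div_le_iff₀ hΩ0, hα, hΩ]
        have g1 : 0 ≤ (W - x) * (1 + s) := mul_nonneg (by linarith) (by linarith)
        have g2 : 0 ≤ x * f * (1 / 3 - s / 6) := by
          have : 0 ≤ 1 / 3 - s / 6 := by linarith
          positivity
        nlinarith
      have ht1 : t ≤ 1 := hts.trans hs1
      refine ⟨Ω, α, x * f / 2, Ω, t, by rw [hΩ]; ring, hΩ0, ht0, ht1, ?_, ?_, ?_⟩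
      · intro c _
        have h1 : 0 ≤ x * f / 2 * c ^ 2 := by positivity
        have h2 : Ω * (1 + t * c) = Ω + α * c := by rw [← hΩt]; ring
        rw [h2]
        linarith
      · intro c hc
        obtain ⟨c1, c2⟩ := sq_le_one_bounds hc
        refine admissible hf0.le hf1 hs0 hs1 hx.le hY hc ?_
        have h1 : 0 ≤ (W + x * f / 3 - x) * (1 - c) := by
          refine mul_nonneg ?_ (by linarith)
          have : 0 ≤ x * f / 3 := by positivity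
          linarith
        have e : Ω + α * c + x * f / 2 * c ^ 2 - x * (s * c + (1 - f / 2 * (1 - c ^ 2))) =
            (W + x * f / 3 - x) * (1 - c) := by
          rw [hΩ, hα]
          ring
        linarith
      · set I0 := 2 / 3 + 2 * t ^ 2 / 15 + t ^ 3 / 5 with hI0
        set I1 := 2 * t / 15 + t ^ 3 / 5 with hI1
        set I2 := 2 / 15 + 2 * t ^ 2 / 35 + t ^ 3 / 7 with hI2
        have e : 6 * Ω - ((6 * Ω) ^ 2 * I0 - 2 * (6 * Ω) * (4 * s * (x * f / 2) / x) * I1 +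
            (4 * s * (x * f / 2) / x) ^ 2 * I2) / (8 * Ω) - 2 * s * α / x + 2 * s ^ 2 - 3 * f =
            Ω * (6 - 9 / 2 * I0) + 3 * s * f * I1 - s ^ 2 * f * (f / Ω) * I2 / 2 +
              2 * s * (W / x - 1) + 2 * s * f / 3 - 3 * f := by
          rw [hα]
          field_simp
          ring
        rw [e]
        have hI0' : I0 ≤ 1 := by
          have q2 : t ^ 2 ≤ 1 := pow_le_one₀ ht0 ht1
          have q3 : t ^ 3 ≤ 1 := pow_le_one₀ ht0 ht1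
          rw [hI0]
          linarith
        have hI2' : 0 ≤ I2 := by rw [hI2]; positivity
        have k1 : f * (6 - 9 / 2 * I0) ≤ Ω * (6 - 9 / 2 * I0) :=
          mul_le_mul_of_nonneg_right hΩf (by linarith)
        have k2 : s ^ 2 * f * (f / Ω) * I2 ≤ s ^ 2 * f * 1 * I2 := by
          have : f / Ω ≤ 1 := (div_le_one hΩ0).2 hΩf
          have : s ^ 2 * f * (f / Ω) ≤ s ^ 2 * f * 1 :=
            mul_le_mul_of_nonneg_left this (by positivity)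
          exact mul_le_mul_of_nonneg_right this hI2'
        have k3 : 0 ≤ 2 * s * (W / x - 1) := by
          refine mul_nonneg (by linarith) ?_
          rw [sub_nonneg, le_div_iff₀ hx, one_mul]
          exact hG
        have k4 := mul_nonneg hf0.le (scalar_end ht0 hts hs1)
        rw [← hI0, ← hI1, ← hI2] at k4
        have e2 : f * (3 - 9 / 2 * I0 + 3 * s * I1 - s ^ 2 * I2 / 2 + 2 * s / 3) =
            f * (6 - 9 / 2 * I0) + 3 * s * f * I1 - s ^ 2 * f * 1 * I2 / 2 +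
              2 * s * f / 3 - 3 * f := by ring
        rw [e2] at k4
        linarith

end Pool.Agent.U980.PI
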