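import Pool.Agent.U980.PI.Sphere
import Pool.Agent.U980.PI.Scalar

/-!
# The monotone quasilocal rest mass
-/

set_option autoImplicit false

namespace Pool.Agent.U980.PI

open scoped BigOperators Topology
open Matrix Filter Set MeasureTheory
open Pool.Agent.K4H63.PI

/-- The tested momentum, contracted with the average of `h(ν, ·)`. -/
noncomputable def BJ (φ : ℝ → ℝ) (h : E → Matrix (Fin 3) (Fin 3) ℝ) (r : ℝ) : ℝ :=
  ∑ j, sphAvg (mixed h j) r * sphAvg (JT φ h (pp φ r) j) r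

theorem B2_nonneg (h : E → Matrix (Fin 3) (Fin 3) ℝ) (r : ℝ) : 0 ≤ B2 h r :=
  Finset.sum_nonneg fun _ _ => sq_nonneg _

theorem TT_nonneg {φ : ℝ → ℝ} (hφ : Good φ) {h : E → Matrix (Fin 3) (Fin 3) ℝ} (H : Tensor h)
    {r : ℝ} (hr : 0 < r) {q q' : ℝ} (hq : ∀ w : E, ‖w‖ = 1 → qq h (r • w) = q)
    (hq' : ∀ w : E, ‖w‖ = 1 → dr (qq h) (r • w) = q')
    (hdec : ∀ w : E, ‖w‖ = 1 → momentumNorm (metric φ) h (r • w) ≤ energy (metric φ) h (r • w))
    {p : E} (hp : ‖p‖ = r) {σ : ℝ} (hσ : 2 * (φ r) ^ 2 * pp φ r * σ = r * q)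
    (hσ1 : σ ^ 2 ≤ 1) : 0 ≤ TT φ p q q' σ r := by
  have he : ∑ i : Fin 3, (if i = 0 then (1:ℝ) else 0) ^ 2 = 1 := by
    simp
  have h1 := sphere_test hφ H hr hq hq' hdec hp he (a₀ := 1) (a₁ := 0) (a₂ := 0) (κ := 0) hσ
    (fun c _ => ⟨by norm_num, by nlinarith⟩)
  have h2 := sphAvg_mono (r := r) (F := fun _ => (0:ℝ))
    (G := fun x => (1 + 0 * cf (fun i : Fin 3 => if i = 0 then (1:ℝ) else 0) x +
      0 * (cf (fun i : Fin 3 => if i = 0 then (1:ℝ) else 0) x) ^ 2) * transverse h x)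
    continuousOn_const (by
      have cN := H.transverse_cont
      have cc := cf_cont (fun i : Fin 3 => if i = 0 then (1:ℝ) else 0)
      fun_prop) hr (fun w hw => by
      have := transverse_nonneg h (ray_ne hw hr)
      simp only [zero_mul, add_zero, one_mul]
      exact this)
  rw [sphAvg_const] at h2
  simp only [mul_zero, zero_mul, add_zero, sub_zero, zero_div, one_mul] at h1 h2
  linarith

/-- The key estimate on a sphere. -/
theorem sphere_sign {φ : ℝ → ℝ} (hφ : Good φ) {h : E → Matrix (Fin 3) (Fin 3) ℝ} (H : Tensor h)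
    {r : ℝ} (hr : 0 < r) {q q' : ℝ} (hq : ∀ w : E, ‖w‖ = 1 → qq h (r • w) = q)
    (hq' : ∀ w : E, ‖w‖ = 1 → dr (qq h) (r • w) = q')
    (hdec : ∀ w : E, ‖w‖ = 1 → momentumNorm (metric φ) h (r • w) ≤ energy (metric φ) h (r • w))
    {p : E} (hp : ‖p‖ = r) {σ : ℝ} (hσ : 2 * (φ r) ^ 2 * pp φ r * σ = r * q)
    (hσ1 : σ ^ 2 ≤ 1) {F : ℝ} (hF0 : 0 < F)
    (hF : F = (φ r) ^ 2 * r * (1 - (pp φ r) ^ 2 * (1 - σ ^ 2)))
    (hΨ : 0 ≤ F ^ 2 + r ^ 3 * F * B2 h r / (φ r) ^ 2 - r ^ 4 * B2 h r) :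
    0 ≤ TT φ p q q' σ r * (F + r ^ 3 * B2 h r / (2 * (φ r) ^ 2)) - 3 * B2 h r * F +
      2 * r * (φ r) ^ 2 * B2 h r * σ ^ 2 - 2 * r ^ 2 * (φ r) ^ 2 * (1 - σ ^ 2) * BJ φ h r := by
  have hT := TT_nonneg hφ H hr hq hq' hdec hp hσ hσ1
  have hP := hφ.pos r hr
  set P := φ r with hPdef
  set y := pp φ r with hy
  set T := TT φ p q q' σ r with hTdef
  rcases (B2_nonneg h r).eq_or_lt with hb0 | hb0
  · -- the mixed part has zero averages
    have h1 : ∀ j, sphAvg (mixed h j) r = 0 := by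
      intro j
      have h2 : (sphAvg (mixed h j) r) ^ 2 ≤ B2 h r :=
        Finset.single_le_sum (f := fun i => (sphAvg (mixed h i) r) ^ 2)
          (fun j _ => sq_nonneg _) (Finset.mem_univ j)
      rw [← hb0] at h2
      exact pow_eq_zero_iff (two_ne_zero) |>.1 (le_antisymm h2 (sq_nonneg _))
    have h3 : BJ φ h r = 0 := by
      unfold BJ
      simp [h1]
    rw [← hb0, h3]
    have : 0 ≤ T * F := mul_nonneg hT hF0.le
    simp only [mul_zero, zero_div, add_zero, sub_zero, zero_mul]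
    exact this
  · set b := Real.sqrt (B2 h r) with hb
    have hbpos : 0 < b := Real.sqrt_pos.2 hb0
    have hb2 : B2 h r = b ^ 2 := (Real.sq_sqrt hb0.le).symm
    set x := r * b / P ^ 2 with hxdef
    have hx : 0 < x := by positivity
    have hbx : b = P ^ 2 * x / r := by rw [hxdef]; field_simp
    set f := F / (P ^ 2 * r) with hfdef
    have hf0 : 0 < f := by positivity
    have hFf : F = P ^ 2 * r * f := by rw [hfdef]; field_simp
    -- the sign of `σ`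
    obtain ⟨ε, s, hε, hs0, hσs⟩ : ∃ ε s : ℝ, ε ^ 2 = 1 ∧ 0 ≤ s ∧ σ = ε * s := by
      rcases le_total 0 σ with h0 | h0
      · exact ⟨1, σ, by norm_num, h0, by ring⟩
      · exact ⟨-1, -σ, by norm_num, by linarith, by ring⟩
    have hs2 : σ ^ 2 = s ^ 2 := by rw [hσs, mul_pow, hε, one_mul]
    have hs1 : s ≤ 1 := by
      rw [hs2] at hσ1
      nlinarith
    have hY : y ^ 2 * (1 - s ^ 2) = 1 - f := by
      have : f = 1 - y ^ 2 * (1 - s ^ 2) := by
        rw [hfdef, hF, hs2]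
        field_simp
      linarith
    have hf1 : f ≤ 1 := by
      have : 0 ≤ y ^ 2 * (1 - s ^ 2) := mul_nonneg (sq_nonneg _) (by nlinarith)
      linarith
    have hG : x ≤ f + x ^ 2 / 2 := by
      have e : F ^ 2 + r ^ 3 * F * B2 h r / P ^ 2 - r ^ 4 * B2 h r =
          (P ^ 2 * r) ^ 2 * (2 * f * (f + x ^ 2 / 2 - x) - (x - f) ^ 2) := by
        rw [hb2, hbx, hFf]
        field_simp
        ring
      rw [e] at hΨ
      have h1 : 0 ≤ 2 * f * (f + x ^ 2 / 2 - x) - (x - f) ^ 2 :=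
        nonneg_of_mul_nonneg_right hΨ (by positivity)
      have h2 : 0 ≤ 2 * f * (f + x ^ 2 / 2 - x) := by nlinarith [sq_nonneg (x - f)]
      have h3 : 0 ≤ f + x ^ 2 / 2 - x := nonneg_of_mul_nonneg_right h2 (by positivity)
      linarith
    obtain ⟨a₀, a₁, a₂, Ω, t, ha, hΩ, ht0, ht1, hω1, hω2, hfin⟩ :=
      exists_weight hf0 hf1 hs0 hs1 hx hY hG
    set e : Fin 3 → ℝ := fun j => ε * sphAvg (mixed h j) r / b with hedef
    have he : ∑ i, e i ^ 2 = 1 := by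
      have : ∀ i, e i ^ 2 = (sphAvg (mixed h i) r) ^ 2 / b ^ 2 := by
        intro i
        rw [hedef]
        simp only
        rw [div_pow, mul_pow, hε, one_mul]
      simp only [this]
      rw [← Finset.sum_div, ← hb2, div_eq_one_iff_eq hb0.ne']
      rfl
    have heB : ∑ j, e j * sphAvg (mixed h j) r = ε * b := by
      have : ∀ j, e j * sphAvg (mixed h j) r = ε / b * (sphAvg (mixed h j) r) ^ 2 := by
        intro j
        rw [hedef]
        ring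
      simp only [this]
      rw [← Finset.mul_sum]
      have g : ∑ j, (sphAvg (mixed h j) r) ^ 2 = b ^ 2 := hb2
      rw [g]
      field_simp
    have heJ : ∑ j, e j * sphAvg (JT φ h (pp φ r) j) r = ε / b * BJ φ h r := by
      unfold BJ
      rw [Finset.mul_sum]
      refine Finset.sum_congr rfl fun j _ => ?_
      rw [hedef]
      ring
    have k1 := sphere_test hφ H hr hq hq' hdec hp he (a₀ := a₀) (a₁ := a₁) (a₂ := a₂)
      (σ := σ) (κ := ε * (x * (1 - s ^ 2))) hσ (fun c hc => by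
        obtain ⟨g1, g2⟩ := hω2 c hc
        refine ⟨g1, le_trans (le_of_eq ?_) g2⟩
        rw [hσs]
        have e1 : (ε * s * (a₀ + a₁ * c + a₂ * c ^ 2) + ε * (x * (1 - s ^ 2)) * c) ^ 2 +
            (ε * (x * (1 - s ^ 2))) ^ 2 * y ^ 2 * (1 - c ^ 2) =
            ε ^ 2 * ((s * (a₀ + a₁ * c + a₂ * c ^ 2) + x * (1 - s ^ 2) * c) ^ 2 +
            (x * (1 - s ^ 2)) ^ 2 * y ^ 2 * (1 - c ^ 2)) := by ring
        rw [e1, hε, one_mul])
    have k2 := weight_ge H hr he hΩ ht0 ht1 hω1 (ε * b * (6 * Ω)) (4 * P ^ 2 * σ * a₂ / r)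
    rw [heB, heJ] at k1
    rw [heB] at k2
    rw [← hPdef, ← hTdef, ha] at k1
    set Cc := sphAvg (fun x => cf e x * ∑ i, e i * mixed h i x) r with hCc
    set NN := sphAvg (fun x => (a₀ + a₁ * cf e x + a₂ * (cf e x) ^ 2) * transverse h x) r
      with hNN
    set I0 := 2 / 3 + 2 * t ^ 2 / 15 + t ^ 3 / 5 with hI0
    set I1 := 2 * t / 15 + t ^ 3 / 5 with hI1
    set I2 := 2 / 15 + 2 * t ^ 2 / 35 + t ^ 3 / 7 with hI2
    -- combine
    have k3 : b ^ 2 * (6 * Ω - ((6 * Ω) ^ 2 * I0 - 2 * (6 * Ω) * (4 * s * a₂ / x) * I1 +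
        (4 * s * a₂ / x) ^ 2 * I2) / (8 * Ω) - 2 * s * a₁ / x) +
        2 * r * (1 - s ^ 2) * BJ φ h r ≤ (f + x ^ 2 / 2) * T := by
      have e1 : b ^ 2 * (6 * Ω - ((6 * Ω) ^ 2 * I0 - 2 * (6 * Ω) * (4 * s * a₂ / x) * I1 +
          (4 * s * a₂ / x) ^ 2 * I2) / (8 * Ω) - 2 * s * a₁ / x) +
          2 * r * (1 - s ^ 2) * BJ φ h r =
          ε ^ 2 * b ^ 2 * (6 * Ω) - (ε ^ 2 * b ^ 2 * (6 * Ω) ^ 2 * I0 -
            2 * (ε ^ 2 * b ^ 2 * (6 * Ω) * (4 * s * a₂ / x)) * I1 +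
            ε ^ 2 * b ^ 2 * (4 * s * a₂ / x) ^ 2 * I2) / (8 * Ω) - ε ^ 2 * b ^ 2 *
            (2 * s * a₁ / x) + ε ^ 2 * (2 * r * (1 - s ^ 2) * BJ φ h r) := by
        rw [hε]; ring
      have e2 : ε * b * (6 * Ω) * (ε * b) + 4 * P ^ 2 * σ * a₂ / r * Cc -
          ((ε * b * (6 * Ω)) ^ 2 * I0 - 2 * (ε * b * (6 * Ω)) * (4 * P ^ 2 * σ * a₂ / r) * I1 +
          (4 * P ^ 2 * σ * a₂ / r) ^ 2 * I2) / (8 * Ω) +
          2 * P ^ 2 * (ε * (x * (1 - s ^ 2))) * (ε / b * BJ φ h r) -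
          2 * P ^ 2 * σ / r * (a₁ * (ε * b) + 2 * a₂ * Cc) =
          ε ^ 2 * b ^ 2 * (6 * Ω) - (ε ^ 2 * b ^ 2 * (6 * Ω) ^ 2 * I0 -
            2 * (ε ^ 2 * b ^ 2 * (6 * Ω) * (4 * s * a₂ / x)) * I1 +
            ε ^ 2 * b ^ 2 * (4 * s * a₂ / x) ^ 2 * I2) / (8 * Ω) - ε ^ 2 * b ^ 2 *
            (2 * s * a₁ / x) + ε ^ 2 * (2 * r * (1 - s ^ 2) * BJ φ h r) := by
        rw [hσs, hbx]
        field_simp
        ring
      rw [e1, ← e2]
      linarith
    have k4 : b ^ 2 * (3 * f - 2 * s ^ 2) + 2 * r * (1 - s ^ 2) * BJ φ h r ≤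
        (f + x ^ 2 / 2) * T := by
      have := mul_nonneg (sq_nonneg b) hfin
      linarith
    have k5 := mul_le_mul_of_nonneg_left k4 (show 0 ≤ P ^ 2 * r by positivity)
    have e3 : T * (F + r ^ 3 * B2 h r / (2 * P ^ 2)) = P ^ 2 * r * ((f + x ^ 2 / 2) * T) := by
      rw [hb2, hbx, hFf]
      field_simp
    rw [e3, hs2, hb2, hFf]
    linarith

end Pool.Agent.U980.PI
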