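import Pool.Agent.U980.PI.Test

/-!
# The dominant energy condition integrated against a weighted vector field
-/

set_option autoImplicit false

namespace Pool.Agent.U980.PI

open scoped BigOperators Topology
open Matrix Filter Set MeasureTheory
open Pool.Agent.K4H63.PI

/-- The dominant energy condition tested with a vector and a weight. -/
theorem dec_test_weight {φ : ℝ → ℝ} (hφ : Good φ) {h : E → Matrix (Fin 3) (Fin 3) ℝ}
    (H : Tensor h) {x : E} (hx : x ≠ 0)
    (hdec : momentumNorm (metric φ) h x ≤ energy (metric φ) h x)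
    {ω : ℝ} (hω : 0 ≤ ω) {V : Fin 3 → ℝ} (hV : ∑ i, V i ^ 2 ≤ ω ^ 2) :
    2 * (φ ‖x‖) ^ 2 * ∑ i, V i * JJ φ h i x ≤ ω * ((φ ‖x‖) ^ 8 * scal (metric φ) x +
      (2 * hrad h x * qq h x + (qq h x) ^ 2 / 2 - transverse h x)) := by
  rcases hω.eq_or_lt with h0 | h0
  · have h1 : ∀ i, V i = 0 := by
      intro i
      have h2 : V i ^ 2 ≤ ∑ i, V i ^ 2 :=
        Finset.single_le_sum (f := fun i => V i ^ 2) (fun j _ => sq_nonneg _) (Finset.mem_univ i)
      have h3 : V i ^ 2 ≤ 0 := by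
        refine h2.trans (hV.trans ?_)
        rw [← h0]
        norm_num
      exact pow_eq_zero_iff (two_ne_zero) |>.1 (le_antisymm h3 (sq_nonneg _))
    simp [h1, ← h0]
  · have h1 : ∑ i, (V i / ω) ^ 2 ≤ 1 := by
      simp only [div_pow]
      rw [← Finset.sum_div, div_le_one (by positivity)]
      exact hV
    have h2 := dec_test hφ H hx hdec h1
    have h3 := mul_le_mul_of_nonneg_left h2 h0.le
    refine le_trans (le_of_eq ?_) h3
    have h4 : ∑ i, V i / ω * JJ φ h i x = (∑ i, V i * JJ φ h i x) / ω := by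
      rw [Finset.sum_div]
      exact Finset.sum_congr rfl fun i _ => by ring
    rw [h4]
    field_simp

/-- The quantity tested on a sphere. -/
noncomputable def TT (φ : ℝ → ℝ) (p : E) (q q' σ r : ℝ) : ℝ :=
  (φ r) ^ 8 * scal (metric φ) p + q ^ 2 / 2 +
    2 * (φ r) ^ 2 * σ * (q / r + q' - r * psi φ r * q)

/-- The average of `(a₁ c + a₂ c²) div β`. -/
theorem avg_weight_divMixed {h : E → Matrix (Fin 3) (Fin 3) ℝ} (H : Tensor h) {r : ℝ}
    (hr : 0 < r) (e : Fin 3 → ℝ) (a₀ a₁ a₂ : ℝ) :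
    sphAvg (fun x => (a₀ + a₁ * cf e x + a₂ * (cf e x) ^ 2) * divMixed h x) r =
      -(1 / r) * (a₁ * ∑ j, e j * sphAvg (mixed h j) r +
        2 * a₂ * sphAvg (fun x => cf e x * ∑ i, e i * mixed h i x) r) := by
  have h1 := avg_weight_div (f := fun c => a₀ + a₁ * c + a₂ * c ^ 2)
    (f' := fun c => a₁ + 2 * a₂ * c) (fun c => by
      have d1 := ((hasDerivAt_id c).const_mul a₁).const_add a₀
      have d2 := (hasDerivAt_pow 2 c).const_mul a₂
      refine HasDerivAt.congr_deriv (d1.add d2) ?_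
      simp
      ring) (by fun_prop) (by fun_prop) e (X := mixed h) (fun i => mixed_contDiffOn H i)
    (fun x hx => mixed_tangential h hx) hr
  have h2 : sphAvg (fun x => (a₀ + a₁ * cf e x + a₂ * (cf e x) ^ 2) * divMixed h x) r =
      sphAvg (fun x => (fun c => a₀ + a₁ * c + a₂ * c ^ 2) (cf e x) *
        ∑ i, pd i (mixed h i) x) r := rfl
  rw [h2, h1]
  congr 1
  have cM : ∀ i, ContinuousOn (fun x => e i * mixed h i x) {0}ᶜ := fun i =>
    continuousOn_const.mul (mixed_contDiffOn H i).continuousOn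
  have cE : ContinuousOn (fun x => ∑ i, e i * mixed h i x) {0}ᶜ :=
    continuousOn_finsetSum _ fun i _ => cM i
  have h3 : ∀ w : E, ‖w‖ = 1 → (fun x => (fun c => a₁ + 2 * a₂ * c) (cf e x) *
      ∑ i, e i * mixed h i x) (r • w) = (fun x => a₁ * (∑ i, e i * mixed h i x) +
        2 * a₂ * (cf e x * ∑ i, e i * mixed h i x)) (r • w) := by
    intro w _
    simp only
    ring
  rw [sphAvg_congr (F := fun x => (fun c => a₁ + 2 * a₂ * c) (cf e x) *
      ∑ i, e i * mixed h i x) (G := fun x => a₁ * (∑ i, e i * mixed h i x) +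
        2 * a₂ * (cf e x * ∑ i, e i * mixed h i x)) h3,
    sphAvg_add (F := fun x => a₁ * (∑ i, e i * mixed h i x))
    (G := fun x => 2 * a₂ * (cf e x * ∑ i, e i * mixed h i x)) (continuousOn_const.mul cE)
    (continuousOn_const.mul ((cf_cont e).mul cE)) hr, sphAvg_mul, sphAvg_mul,
    sphAvg_sum cM hr]
  congr 2
  exact Finset.sum_congr rfl fun j _ => sphAvg_mul _ _ _

/-- The dominant energy condition integrated over a centred sphere on which `tr_S h` is constant,
against the weight `ω = a₀ + a₁ c + a₂ c²` and the vector field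
`σ ω ν + κ (y e + (1 - y) c ν)`, `c = ⟨e, ν⟩`. -/
theorem sphere_test {φ : ℝ → ℝ} (hφ : Good φ) {h : E → Matrix (Fin 3) (Fin 3) ℝ} (H : Tensor h)
    {r : ℝ} (hr : 0 < r) {q q' : ℝ} (hq : ∀ w : E, ‖w‖ = 1 → qq h (r • w) = q)
    (hq' : ∀ w : E, ‖w‖ = 1 → dr (qq h) (r • w) = q')
    (hdec : ∀ w : E, ‖w‖ = 1 → momentumNorm (metric φ) h (r • w) ≤ energy (metric φ) h (r • w))
    {p : E} (hp : ‖p‖ = r) {e : Fin 3 → ℝ} (he : ∑ i, e i ^ 2 = 1) {a₀ a₁ a₂ σ κ : ℝ}
    (hσ : 2 * (φ r) ^ 2 * pp φ r * σ = r * q)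
    (hω : ∀ c : ℝ, c ^ 2 ≤ 1 → 0 ≤ a₀ + a₁ * c + a₂ * c ^ 2 ∧
      (σ * (a₀ + a₁ * c + a₂ * c ^ 2) + κ * c) ^ 2 + κ ^ 2 * (pp φ r) ^ 2 * (1 - c ^ 2) ≤
        (a₀ + a₁ * c + a₂ * c ^ 2) ^ 2) :
    sphAvg (fun x => (a₀ + a₁ * cf e x + a₂ * (cf e x) ^ 2) * transverse h x) r +
      2 * (φ r) ^ 2 * κ * (∑ j, e j * sphAvg (JT φ h (pp φ r) j) r) -
      2 * (φ r) ^ 2 * σ / r * (a₁ * ∑ j, e j * sphAvg (mixed h j) r +
        2 * a₂ * sphAvg (fun x => cf e x * ∑ i, e i * mixed h i x) r) ≤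
      (a₀ + a₂ / 3) * TT φ p q q' σ r := by
  have hp0 : p ≠ 0 := by
    rw [← norm_pos_iff, hp]; exact hr
  have cN := H.transverse_cont
  have cD := divMixed_cont H
  have cJ : ∀ j, ContinuousOn (fun x => e j * JT φ h (pp φ r) j x) {0}ᶜ := fun j =>
    continuousOn_const.mul (JT_cont hφ H _ j)
  have cJ' : ContinuousOn (fun x => ∑ j, e j * JT φ h (pp φ r) j x) {0}ᶜ :=
    continuousOn_finsetSum _ fun j _ => cJ j
  have cW : ContinuousOn (fun x => a₀ + a₁ * cf e x + a₂ * (cf e x) ^ 2) {0}ᶜ :=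
    (continuousOn_const.add (continuousOn_const.mul (cf_cont e))).add
      (continuousOn_const.mul ((cf_cont e).pow 2))
  set T := TT φ p q q' σ r with hT
  have h1 := sphAvg_mono (r := r)
    (F := fun x => ((a₀ + a₁ * cf e x + a₂ * (cf e x) ^ 2) * transverse h x +
      2 * (φ r) ^ 2 * σ * ((a₀ + a₁ * cf e x + a₂ * (cf e x) ^ 2) * divMixed h x)) +
      2 * (φ r) ^ 2 * κ * ∑ j, e j * JT φ h (pp φ r) j x)
    (G := fun x => T * (a₀ + a₁ * cf e x + a₂ * (cf e x) ^ 2))
    (((cW.mul cN).add (continuousOn_const.mul (cW.mul cD))).add (continuousOn_const.mul cJ'))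
    (continuousOn_const.mul cW) hr (fun w hw => by
      have hx := ray_ne hw hr
      have hn := ray_norm hw hr
      have hc := cf_sq_le e he hx
      set c := cf e (r • w) with hcdef
      set ω := a₀ + a₁ * c + a₂ * c ^ 2 with hωdef
      obtain ⟨w1, w2⟩ := hω c hc
      have hcs : c = e 0 * un 0 (r • w) + e 1 * un 1 (r • w) + e 2 * un 2 (r • w) := by
        rw [hcdef]
        unfold cf
        simp only [Fin.sum_univ_three]
      have hu : un 0 (r • w) ^ 2 + un 1 (r • w) ^ 2 + un 2 (r • w) ^ 2 = 1 := by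
        have := sum_unit hx
        simp only [Fin.sum_univ_three] at this
        exact this
      have he' := he
      simp only [Fin.sum_univ_three] at he'
      have hV : ∑ i, (σ * ω * un i (r • w) + κ * (pp φ r * e i + (1 - pp φ r) * c *
          un i (r • w))) ^ 2 ≤ ω ^ 2 := by
        refine le_trans (le_of_eq ?_) w2
        simp only [Fin.sum_univ_three]
        set u0 := un 0 (r • w)
        set u1 := un 1 (r • w)
        set u2 := un 2 (r • w)
        set y := pp φ r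
        have e1 : (σ * ω * u0 + κ * (y * e 0 + (1 - y) * c * u0)) ^ 2 +
            (σ * ω * u1 + κ * (y * e 1 + (1 - y) * c * u1)) ^ 2 +
            (σ * ω * u2 + κ * (y * e 2 + (1 - y) * c * u2)) ^ 2 =
            (σ * ω + κ * (1 - y) * c) ^ 2 * (u0 ^ 2 + u1 ^ 2 + u2 ^ 2) +
            2 * (σ * ω + κ * (1 - y) * c) * κ * y * (e 0 * u0 + e 1 * u1 + e 2 * u2) +
            κ ^ 2 * y ^ 2 * (e 0 ^ 2 + e 1 ^ 2 + e 2 ^ 2) := by ring
        rw [e1, hu, he', ← hcs]
        ring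
      have h2 := dec_test_weight hφ H hx (hdec w hw) w1 hV
      rw [hn, hq w hw] at h2
      have hs : scal (metric φ) (r • w) = scal (metric φ) p := by
        rw [scal_metric hφ hx, scal_metric hφ hp0, hn, hp]
      rw [hs] at h2
      have hrad' := radial_JJ hφ H hx
      rw [hn, hq w hw, hq' w hw] at hrad'
      have h3 : ∑ i, (σ * ω * un i (r • w) + κ * (pp φ r * e i + (1 - pp φ r) * c *
          un i (r • w))) * JJ φ h i (r • w) = σ * ω * (∑ k, un k (r • w) * JJ φ h k (r • w)) +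
          κ * ∑ j, e j * JT φ h (pp φ r) j (r • w) := by
        unfold JT
        simp only [Fin.sum_univ_three]
        rw [hcs]
        ring
      rw [h3, hrad'] at h2
      have hcross : 2 * (φ r) ^ 2 * (σ * ω * (2 * hrad h (r • w) / r +
          r * psi φ r * (2 * hrad h (r • w)))) = 2 * hrad h (r • w) * q * ω := by
        have : 2 * (φ r) ^ 2 * (σ * ω * (2 * hrad h (r • w) / r +
          r * psi φ r * (2 * hrad h (r • w)))) =
          (2 * (φ r) ^ 2 * pp φ r * σ) * (2 * hrad h (r • w) * ω / r) := by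
          unfold pp
          field_simp
        rw [this, hσ]
        field_simp
      rw [hT]
      unfold TT
      have e5 : 2 * (φ r) ^ 2 * (σ * ω * (divMixed h (r • w) + (2 * hrad h (r • w) - q) / r -
          q' + r * psi φ r * (2 * hrad h (r • w) + q)) + κ * ∑ j, e j * JT φ h (pp φ r) j (r • w)) =
          2 * (φ r) ^ 2 * (σ * ω * (2 * hrad h (r • w) / r +
          r * psi φ r * (2 * hrad h (r • w)))) + 2 * (φ r) ^ 2 * (σ * ω * (divMixed h (r • w)
          - (q / r + q' - r * psi φ r * q))) + 2 * (φ r) ^ 2 * κ *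
          ∑ j, e j * JT φ h (pp φ r) j (r • w) := by
        ring
      rw [e5, hcross] at h2
      linarith)
  rw [sphAvg_add (F := fun x => (a₀ + a₁ * cf e x + a₂ * (cf e x) ^ 2) * transverse h x +
      2 * (φ r) ^ 2 * σ * ((a₀ + a₁ * cf e x + a₂ * (cf e x) ^ 2) * divMixed h x))
      (G := fun x => 2 * (φ r) ^ 2 * κ * ∑ j, e j * JT φ h (pp φ r) j x)
      ((cW.mul cN).add (continuousOn_const.mul (cW.mul cD))) (continuousOn_const.mul cJ') hr,
    sphAvg_add (F := fun x => (a₀ + a₁ * cf e x + a₂ * (cf e x) ^ 2) * transverse h x)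
      (G := fun x => 2 * (φ r) ^ 2 * σ * ((a₀ + a₁ * cf e x + a₂ * (cf e x) ^ 2) *
        divMixed h x)) (cW.mul cN) (continuousOn_const.mul (cW.mul cD)) hr,
    sphAvg_mul, sphAvg_mul, sphAvg_mul, avg_weight_divMixed H hr, sphAvg_sum cJ hr] at h1
  have e6 : sphAvg (fun x => a₀ + a₁ * cf e x + a₂ * (cf e x) ^ 2) r = a₀ + a₂ / 3 := by
    have := avg_c_poly e he hr a₀ a₁ a₂ 0 0 0 0
    simp only [zero_mul, add_zero, zero_div] at this
    exact this
  rw [e6] at h1
  have e7 : ∑ j, sphAvg (fun x => e j * JT φ h (pp φ r) j x) r =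
      ∑ j, e j * sphAvg (JT φ h (pp φ r) j) r :=
    Finset.sum_congr rfl fun j _ => sphAvg_mul _ _ _
  rw [e7] at h1
  refine le_trans (le_of_eq ?_) (h1.trans (le_of_eq (by ring)))
  ring

/-- The polynomial majorant of `(1 - c²) / (1 + t c)`. -/
noncomputable def VV (t c : ℝ) : ℝ :=
  1 - t * c + (t ^ 2 - 1) * c ^ 2 + (t - t ^ 3) * c ^ 3 + (t ^ 3 - t ^ 2) * c ^ 4

theorem VV_spec {t c : ℝ} (ht0 : 0 ≤ t) (ht1 : t ≤ 1) (hc : c ^ 2 ≤ 1) :
    0 ≤ VV t c ∧ 1 - c ^ 2 ≤ (1 + t * c) * VV t c := by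
  have hc1 : -1 ≤ c := by nlinarith
  have hc2 : c ≤ 1 := by nlinarith
  have e1 : VV t c = (1 - c) * ((1 + c) * (1 - t * c) + t ^ 2 * c ^ 2 * ((1 - t) * (1 + c) + t)) := by
    unfold VV
    ring
  have h1 : 0 ≤ 1 - t * c := by nlinarith [abs_le.2 ⟨hc1, hc2⟩]
  have h2 : 0 ≤ (1 - t) * (1 + c) + t := by nlinarith [mul_nonneg (sub_nonneg.2 ht1) (by linarith : 0 ≤ 1 + c)]
  have h3 : 0 ≤ (1 + c) * (1 - t * c) := mul_nonneg (by linarith) h1
  constructor
  · rw [e1]
    exact mul_nonneg (by linarith) (by positivity)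
  · have e2 : (1 + t * c) * VV t c - (1 - c ^ 2) = t ^ 2 * c ^ 2 * (1 - c) * (t * (1 - t) * c ^ 2) := by
      unfold VV
      ring
    have h4 : 0 ≤ t ^ 2 * c ^ 2 * (1 - c) * (t * (1 - t) * c ^ 2) := by
      have : 0 ≤ 1 - c := by linarith
      have : 0 ≤ 1 - t := by linarith
      positivity
    linarith

/-- Lower bound for the weighted average of the transverse part. -/
theorem weight_ge {h : E → Matrix (Fin 3) (Fin 3) ℝ} (H : Tensor h) {r : ℝ} (hr : 0 < r)
    {e : Fin 3 → ℝ} (he : ∑ i, e i ^ 2 = 1) {a₀ a₁ a₂ Ω t : ℝ} (hΩ : 0 < Ω) (ht0 : 0 ≤ t)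
    (ht1 : t ≤ 1) (hω : ∀ c : ℝ, c ^ 2 ≤ 1 → Ω * (1 + t * c) ≤ a₀ + a₁ * c + a₂ * c ^ 2)
    (l₀ l₁ : ℝ) :
    l₀ * (∑ j, e j * sphAvg (mixed h j) r) +
      l₁ * sphAvg (fun x => cf e x * ∑ i, e i * mixed h i x) r -
      (l₀ ^ 2 * (2 / 3 + 2 * t ^ 2 / 15 + t ^ 3 / 5) - 2 * l₀ * l₁ * (2 * t / 15 + t ^ 3 / 5) +
        l₁ ^ 2 * (2 / 15 + 2 * t ^ 2 / 35 + t ^ 3 / 7)) / (8 * Ω) ≤
      sphAvg (fun x => (a₀ + a₁ * cf e x + a₂ * (cf e x) ^ 2) * transverse h x) r := by
  have cN := H.transverse_cont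
  have cM : ∀ i, ContinuousOn (fun x => e i * mixed h i x) {0}ᶜ := fun i =>
    continuousOn_const.mul (mixed_contDiffOn H i).continuousOn
  have cE : ContinuousOn (fun x => ∑ i, e i * mixed h i x) {0}ᶜ :=
    continuousOn_finsetSum _ fun i _ => cM i
  have cc := cf_cont e
  have cV : ContinuousOn (fun x => (l₀ + l₁ * cf e x) ^ 2 * VV t (cf e x)) {0}ᶜ := by
    unfold VV
    fun_prop
  have cW : ContinuousOn (fun x => a₀ + a₁ * cf e x + a₂ * (cf e x) ^ 2) {0}ᶜ := by fun_prop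
  have h1 := sphAvg_mono (r := r)
    (F := fun x => (l₀ * (∑ i, e i * mixed h i x) + l₁ * (cf e x * ∑ i, e i * mixed h i x)) -
      1 / (8 * Ω) * ((l₀ + l₁ * cf e x) ^ 2 * VV t (cf e x)))
    (G := fun x => (a₀ + a₁ * cf e x + a₂ * (cf e x) ^ 2) * transverse h x)
    (((continuousOn_const.mul cE).add (continuousOn_const.mul (cc.mul cE))).sub
      (continuousOn_const.mul cV)) (cW.mul cN) hr (fun w hw => by
      have hx := ray_ne hw hr
      have hc := cf_sq_le e he hx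
      have hN := transverse_ge H hx
      have ht := mixed_tangential h hx
      have hu := sum_unit hx
      set c := cf e (r • w) with hcdef
      have hcs : c = ∑ k, e k * un k (r • w) := rfl
      obtain ⟨v1, v2⟩ := VV_spec ht0 ht1 hc
      have hω' := hω c hc
      have hpos : 0 ≤ Ω * (1 + t * c) := by
        refine mul_nonneg hΩ.le ?_
        have : -1 ≤ c := by nlinarith
        nlinarith
      set S := ∑ i, (mixed h i (r • w)) ^ 2 with hS
      have hS0 : 0 ≤ S := Finset.sum_nonneg fun i _ => sq_nonneg _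
      set z := ∑ i, e i * mixed h i (r • w) with hz
      have hz2 : z ^ 2 ≤ (1 - c ^ 2) * S := by
        have g1 := Finset.sum_mul_sq_le_sq_mul_sq Finset.univ (fun i => e i - c * un i (r • w))
          (fun i => mixed h i (r • w))
        have g2 : ∑ i, (e i - c * un i (r • w)) * mixed h i (r • w) = z := by
          have : ∑ i, (e i - c * un i (r • w)) * mixed h i (r • w) =
              z - c / ‖r • w‖ * ∑ i, mixed h i (r • w) * (r • w) i := by
            rw [hz, Finset.mul_sum, ← Finset.sum_sub_distrib]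
            refine Finset.sum_congr rfl fun i _ => ?_
            unfold un
            ring
          rw [this, ht, mul_zero, sub_zero]
        have g3 : ∑ i, (e i - c * un i (r • w)) ^ 2 = 1 - c ^ 2 := by
          have hu' : ∑ i, (un i (r • w)) ^ 2 = 1 := hu
          simp only [Fin.sum_univ_three] at he hu' hcs ⊢
          linear_combination he + c ^ 2 * hu' + 2 * c * hcs
        rw [g2, g3] at g1
        exact g1
      have hNN : Ω * (1 + t * c) * (2 * S) ≤
          (a₀ + a₁ * c + a₂ * c ^ 2) * transverse h (r • w) := by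
        refine mul_le_mul hω' hN (by positivity) (hpos.trans hω')
      refine le_trans ?_ hNN
      set l := l₀ + l₁ * c with hl
      have e1 : l₀ * z + l₁ * (c * z) = l * z := by rw [hl]; ring
      rw [e1]
      -- AM-GM
      set A := Ω * (1 + t * c) * (2 * S) with hA
      set D := 1 / (8 * Ω) * (l ^ 2 * VV t c) with hD
      have hA0 : 0 ≤ A := by positivity
      have hD0 : 0 ≤ D := by positivity
      have h5 : (l * z) ^ 2 ≤ 4 * (A * D) := by
        have e2 : 4 * (A * D) = l ^ 2 * (((1 + t * c) * VV t c) * S) := by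
          rw [hA, hD]
          field_simp
          ring
        rw [e2, mul_pow]
        refine mul_le_mul_of_nonneg_left (hz2.trans ?_) (sq_nonneg _)
        exact mul_le_mul_of_nonneg_right v2 hS0
      have h6 : l * z ≤ A + D := by
        refine abs_le_of_sq_le_sq' ?_ (by positivity) |>.2
        nlinarith [sq_nonneg (A - D)]
      linarith)
  rw [sphAvg_sub (F := fun x => l₀ * (∑ i, e i * mixed h i x) +
      l₁ * (cf e x * ∑ i, e i * mixed h i x))
      (G := fun x => 1 / (8 * Ω) * ((l₀ + l₁ * cf e x) ^ 2 * VV t (cf e x)))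
      ((continuousOn_const.mul cE).add (continuousOn_const.mul (cc.mul cE)))
      (continuousOn_const.mul cV) hr,
    sphAvg_add (F := fun x => l₀ * (∑ i, e i * mixed h i x))
      (G := fun x => l₁ * (cf e x * ∑ i, e i * mixed h i x)) (continuousOn_const.mul cE)
      (continuousOn_const.mul (cc.mul cE)) hr, sphAvg_mul, sphAvg_mul, sphAvg_mul,
    sphAvg_sum cM hr] at h1
  have e8 : ∑ j, sphAvg (fun x => e j * mixed h j x) r = ∑ j, e j * sphAvg (mixed h j) r :=
    Finset.sum_congr rfl fun j _ => sphAvg_mul _ _ _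
  have e9 : sphAvg (fun x => (l₀ + l₁ * cf e x) ^ 2 * VV t (cf e x)) r =
      l₀ ^ 2 * (2 / 3 + 2 * t ^ 2 / 15 + t ^ 3 / 5) - 2 * l₀ * l₁ * (2 * t / 15 + t ^ 3 / 5) +
        l₁ ^ 2 * (2 / 15 + 2 * t ^ 2 / 35 + t ^ 3 / 7) := by
    have g := avg_c_poly e he hr (l₀ ^ 2) (-(l₀ ^ 2 * t) + 2 * l₀ * l₁)
      (l₀ ^ 2 * (t ^ 2 - 1) - 2 * l₀ * l₁ * t + l₁ ^ 2)
      (l₀ ^ 2 * (t - t ^ 3) + 2 * l₀ * l₁ * (t ^ 2 - 1) - l₁ ^ 2 * t)
      (l₀ ^ 2 * (t ^ 3 - t ^ 2) + 2 * l₀ * l₁ * (t - t ^ 3) + l₁ ^ 2 * (t ^ 2 - 1))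
      (2 * l₀ * l₁ * (t ^ 3 - t ^ 2) + l₁ ^ 2 * (t - t ^ 3)) (l₁ ^ 2 * (t ^ 3 - t ^ 2))
    have g' : sphAvg (fun x => (l₀ + l₁ * cf e x) ^ 2 * VV t (cf e x)) r = _ :=
      (sphAvg_congr fun w _ => by
        unfold VV
        ring).trans g
    rw [g']
    ring
  rw [e8, e9] at h1
  refine le_trans (le_of_eq ?_) h1
  ring

end Pool.Agent.U980.PI
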