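import Pool.Agent.K4H63.PI.Peak

/-!
# Weighted averages over centred spheres

Averages of polynomials in a linear coordinate function, the divergence theorem with such
weights, and the dominant energy condition tested with a weighted vector field.
-/

set_option autoImplicit false

namespace Pool.Agent.U980.PI

open scoped BigOperators Topology
open Matrix Filter Set MeasureTheory
open Pool.Agent.K4H63.PI

/-- The linear coordinate function in the direction `e` (extended radially). -/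
noncomputable def cf (e : Fin 3 → ℝ) (x : E) : ℝ := ∑ k, e k * un k x

theorem cf_smooth (e : Fin 3 → ℝ) : ContDiffOn ℝ 1 (cf e) {0}ᶜ :=
  ContDiffOn.sum fun k _ => contDiffOn_const.mul (un_smooth k)

theorem cf_cont (e : Fin 3 → ℝ) : ContinuousOn (cf e) {0}ᶜ := (cf_smooth e).continuousOn

theorem pd_cf (e : Fin 3 → ℝ) {x : E} (hx : x ≠ 0) (i : Fin 3) :
    pd i (cf e) x = e i / ‖x‖ - cf e x * (x i / ‖x‖ ^ 2) := by
  have hr : ‖x‖ ≠ 0 := norm_ne_zero_iff.2 hx
  have h1 : pd i (cf e) x = ∑ k, e k * (kd i k / ‖x‖ - x i * x k / ‖x‖ ^ 3) := by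
    rw [show cf e = fun y => ∑ k, e k * un k y from rfl,
      pd_sum (F := fun k y => e k * un k y)
        (fun k => (differentiableAt_const _).mul (smooth_diff (un_smooth k) hx))]
    refine Finset.sum_congr rfl fun k _ => ?_
    rw [pd_mul (differentiableAt_const _) (smooth_diff (un_smooth k) hx), pd_un hx, pd_const]
    ring
  rw [h1]
  unfold cf un
  fin_cases i <;> simp [Fin.sum_univ_three, kd] <;> field_simp <;> ring

theorem pd_comp_cf {f f' : ℝ → ℝ} (hf : ∀ c, HasDerivAt f (f' c) c) (e : Fin 3 → ℝ) {x : E}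
    (hx : x ≠ 0) (i : Fin 3) : pd i (fun y => f (cf e y)) x = f' (cf e x) * pd i (cf e) x := by
  unfold pd
  have h1 := (hf (cf e x)).comp_hasFDerivAt x (smooth_diff (cf_smooth e) hx).hasFDerivAt
  have h2 : fderiv ℝ (fun y => f (cf e y)) x = f' (cf e x) • fderiv ℝ (cf e) x := h1.fderiv
  rw [h2]
  rfl

/-- The divergence theorem with the weight `f (cf e)`. -/
theorem avg_weight_div {f f' : ℝ → ℝ} (hf : ∀ c, HasDerivAt f (f' c) c) (hfc : ContDiff ℝ 1 f)
    (hf'c : Continuous f') (e : Fin 3 → ℝ) {X : Fin 3 → E → ℝ}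
    (hX : ∀ i, ContDiffOn ℝ 1 (X i) {0}ᶜ) (ht : ∀ x, x ≠ 0 → ∑ i, X i x * x i = 0) {r : ℝ}
    (hr : 0 < r) :
    sphAvg (fun x => f (cf e x) * ∑ i, pd i (X i) x) r =
      -(1 / r) * sphAvg (fun x => f' (cf e x) * ∑ i, e i * X i x) r := by
  have cfs : ContDiffOn ℝ 1 (fun x => f (cf e x)) {0}ᶜ := hfc.comp_contDiffOn (cf_smooth e)
  have h1 := sphAvg_zero_of (X := fun i x => f (cf e x) * X i x)
    (fun i => cfs.mul (hX i)) (fun x hx => by
      have : ∑ i, f (cf e x) * X i x * x i = f (cf e x) * ∑ i, X i x * x i := by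
        rw [Finset.mul_sum]
        exact Finset.sum_congr rfl fun i _ => by ring
      rw [this, ht x hx, mul_zero]) hr
  have h2 : ∀ w : E, ‖w‖ = 1 → (∑ i, pd i (fun x => f (cf e x) * X i x) (r • w)) =
      (fun x => f (cf e x) * ∑ i, pd i (X i) x + 1 / r * (f' (cf e x) * ∑ i, e i * X i x))
        (r • w) := by
    intro w hw
    have hx := ray_ne hw hr
    have hrn := ray_norm hw hr
    have h3 : ∀ i, pd i (fun x => f (cf e x) * X i x) (r • w) =
        f (cf e (r • w)) * pd i (X i) (r • w) + X i (r • w) * (f' (cf e (r • w)) *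
          (e i / r - cf e (r • w) * ((r • w) i / r ^ 2))) := by
      intro i
      rw [pd_mul (smooth_diff cfs hx) (smooth_diff (hX i) hx), pd_comp_cf hf e hx, pd_cf e hx,
        hrn]
    simp only [h3]
    rw [Finset.sum_add_distrib, ← Finset.mul_sum]
    congr 1
    have h4 : ∑ i, X i (r • w) * (f' (cf e (r • w)) *
          (e i / r - cf e (r • w) * ((r • w) i / r ^ 2))) =
        f' (cf e (r • w)) / r * (∑ i, e i * X i (r • w)) -
          f' (cf e (r • w)) * cf e (r • w) / r ^ 2 * ∑ i, X i (r • w) * (r • w) i := by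
      rw [Finset.mul_sum, Finset.mul_sum, ← Finset.sum_sub_distrib]
      exact Finset.sum_congr rfl fun i _ => by ring
    rw [h4, ht _ hx]
    ring
  have h5 := sphAvg_congr (F := fun x => ∑ i, pd i (fun x => f (cf e x) * X i x) x)
    (G := fun x => f (cf e x) * ∑ i, pd i (X i) x + 1 / r * (f' (cf e x) * ∑ i, e i * X i x))
    (r := r) h2
  rw [h5] at h1
  have cD : ContinuousOn (fun x => ∑ i, pd i (X i) x) {0}ᶜ :=
    continuousOn_finsetSum _ fun i _ => pd_cont (hX i) i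
  have cE : ContinuousOn (fun x => ∑ i, e i * X i x) {0}ᶜ :=
    continuousOn_finsetSum _ fun i _ => continuousOn_const.mul (hX i).continuousOn
  have cF' : ContinuousOn (fun x => f' (cf e x)) {0}ᶜ := hf'c.comp_continuousOn (cf_cont e)
  rw [sphAvg_add (F := fun x => f (cf e x) * ∑ i, pd i (X i) x)
    (G := fun x => 1 / r * (f' (cf e x) * ∑ i, e i * X i x))
    (cfs.continuousOn.mul cD) (continuousOn_const.mul (cF'.mul cE)) hr, sphAvg_mul] at h1
  linarith

/-- The tangential part of the constant vector field `e`. -/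
noncomputable def tf (e : Fin 3 → ℝ) (i : Fin 3) (x : E) : ℝ := e i - cf e x * un i x

theorem tf_smooth (e : Fin 3 → ℝ) (i : Fin 3) : ContDiffOn ℝ 1 (tf e i) {0}ᶜ :=
  contDiffOn_const.sub ((cf_smooth e).mul (un_smooth i))

theorem tf_tangential (e : Fin 3 → ℝ) {x : E} (hx : x ≠ 0) : ∑ i, tf e i x * x i = 0 := by
  have hr : ‖x‖ ≠ 0 := norm_ne_zero_iff.2 hx
  have hn := norm_sq_eq x
  unfold tf cf un
  simp only [Fin.sum_univ_three]
  field_simp
  linear_combination (e 0 * x 0 + e 1 * x 1 + e 2 * x 2) * hn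

theorem div_tf (e : Fin 3 → ℝ) {x : E} (hx : x ≠ 0) :
    ∑ i, pd i (tf e i) x = -(2 * cf e x / ‖x‖) := by
  have hr : ‖x‖ ≠ 0 := norm_ne_zero_iff.2 hx
  have hn := norm_sq_eq x
  have h1 : ∀ i, pd i (tf e i) x = -(cf e x * (kd i i / ‖x‖ - x i * x i / ‖x‖ ^ 3) +
      un i x * (e i / ‖x‖ - cf e x * (x i / ‖x‖ ^ 2))) := by
    intro i
    have d := smooth_diff (cf_smooth e) hx
    have d' := smooth_diff (un_smooth i) hx
    have d1 : DifferentiableAt ℝ (fun y => cf e y * un i y) x := d.mul d'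
    rw [show tf e i = fun y => e i - cf e y * un i y from rfl,
      pd_sub (differentiableAt_const _) d1, pd_const, pd_mul d d', pd_un hx, pd_cf e hx]
    ring
  simp only [h1]
  have h2 : cf e x = (e 0 * x 0 + e 1 * x 1 + e 2 * x 2) / ‖x‖ := by
    unfold cf un
    simp only [Fin.sum_univ_three]
    ring
  unfold un
  simp only [Fin.sum_univ_three, kd, if_true]
  rw [h2]
  field_simp
  linear_combination (-2 * (e 0 * x 0 + e 1 * x 1 + e 2 * x 2)) * hn

theorem e_tf (e : Fin 3 → ℝ) (he : ∑ i, e i ^ 2 = 1) (x : E) :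
    ∑ i, e i * tf e i x = 1 - (cf e x) ^ 2 := by
  have h2 : cf e x = e 0 * un 0 x + e 1 * un 1 x + e 2 * un 2 x := by
    unfold cf
    simp only [Fin.sum_univ_three]
  unfold tf
  simp only [Fin.sum_univ_three] at he ⊢
  linear_combination he + cf e x * h2

/-- `|cf e| ≤ 1` for a unit vector `e`. -/
theorem cf_sq_le (e : Fin 3 → ℝ) (he : ∑ i, e i ^ 2 = 1) {x : E} (hx : x ≠ 0) :
    (cf e x) ^ 2 ≤ 1 := by
  have h1 := Finset.sum_mul_sq_le_sq_mul_sq Finset.univ e (fun k => un k x)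
  have h2 : ∑ k, (un k x) ^ 2 = 1 := sum_unit hx
  rw [he, h2, one_mul] at h1
  exact h1

theorem avg_c_rec (e : Fin 3 → ℝ) (he : ∑ i, e i ^ 2 = 1) {f f' : ℝ → ℝ}
    (hf : ∀ c, HasDerivAt f (f' c) c) (hfc : ContDiff ℝ 1 f) (hf'c : Continuous f') {r : ℝ}
    (hr : 0 < r) : sphAvg (fun x => f (cf e x) * cf e x) r =
      1 / 2 * sphAvg (fun x => f' (cf e x) * (1 - (cf e x) ^ 2)) r := by
  have h1 := avg_weight_div hf hfc hf'c e (X := fun i => tf e i) (fun i => tf_smooth e i)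
    (fun x hx => tf_tangential e hx) hr
  rw [sphAvg_congr (G := fun x => -(2 / r) * (f (cf e x) * cf e x)) (fun w hw => by
    rw [div_tf e (ray_ne hw hr), ray_norm hw hr]
    ring), sphAvg_mul] at h1
  rw [sphAvg_congr (F := fun x => f' (cf e x) * ∑ i, e i * tf e i x)
    (G := fun x => f' (cf e x) * (1 - (cf e x) ^ 2)) (fun w hw => by
      simp only [e_tf e he])] at h1
  field_simp at h1
  linarith

/-- Averages of polynomials of degree at most six in `cf e`. -/
theorem avg_c_pow (e : Fin 3 → ℝ) (he : ∑ i, e i ^ 2 = 1) {r : ℝ} (hr : 0 < r) (k : ℕ) :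
    ((k : ℝ) + 3) * sphAvg (fun x => (cf e x) ^ (k + 2)) r =
      ((k : ℝ) + 1) * sphAvg (fun x => (cf e x) ^ k) r := by
  have h1 := avg_c_rec e he (f := fun c => c ^ (k + 1)) (f' := fun c => ((k : ℝ) + 1) * c ^ k)
    (fun c => by simpa using hasDerivAt_pow (k + 1) c) (by fun_prop) (by fun_prop) hr
  have c1 : ∀ n : ℕ, ContinuousOn (fun x => (cf e x) ^ n) {0}ᶜ := fun n => (cf_cont e).pow n
  rw [sphAvg_congr (F := fun x => cf e x ^ (k + 1) * cf e x) (G := fun x => (cf e x) ^ (k + 2))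
    (fun w _ => by ring),
    sphAvg_congr (F := fun x => ((k : ℝ) + 1) * cf e x ^ k * (1 - cf e x ^ 2))
      (G := fun x => ((k : ℝ) + 1) * ((cf e x) ^ k - (cf e x) ^ (k + 2))) (fun w _ => by ring),
    sphAvg_mul, sphAvg_sub (F := fun x => (cf e x) ^ k) (G := fun x => (cf e x) ^ (k + 2))
      (c1 k) (c1 (k + 2)) hr] at h1
  linarith

theorem avg_c_zero (e : Fin 3 → ℝ) {r : ℝ} : sphAvg (fun x => (cf e x) ^ 0) r = 1 := by
  simp only [pow_zero]
  exact sphAvg_const 1 r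

theorem avg_c_one (e : Fin 3 → ℝ) {r : ℝ} (hr : 0 < r) :
    sphAvg (fun x => (cf e x) ^ 1) r = 0 := by
  have h1 : sphAvg (fun x => (cf e x) ^ 1) r = ∑ k, e k * sphAvg (un k) r := by
    rw [show (fun x => (cf e x) ^ 1) = fun x => ∑ k, e k * un k x from funext fun x => by
      rw [pow_one]; rfl, sphAvg_sum (F := fun k x => e k * un k x)
        (fun k => continuousOn_const.mul (un_cont k)) hr]
    exact Finset.sum_congr rfl fun k _ => sphAvg_mul _ _ _
  rw [h1]
  simp [sphAvg_un _ hr]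

theorem avg_c_vals (e : Fin 3 → ℝ) (he : ∑ i, e i ^ 2 = 1) {r : ℝ} (hr : 0 < r) :
    sphAvg (fun x => (cf e x) ^ 2) r = 1 / 3 ∧ sphAvg (fun x => (cf e x) ^ 3) r = 0 ∧
    sphAvg (fun x => (cf e x) ^ 4) r = 1 / 5 ∧ sphAvg (fun x => (cf e x) ^ 5) r = 0 ∧
    sphAvg (fun x => (cf e x) ^ 6) r = 1 / 7 := by
  have h0 := avg_c_pow e he hr 0
  have h1 := avg_c_pow e he hr 1
  have h2 := avg_c_pow e he hr 2
  have h3 := avg_c_pow e he hr 3
  have h4 := avg_c_pow e he hr 4
  have z := avg_c_zero e (r := r)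
  have o := avg_c_one e hr
  norm_num at h0 h1 h2 h3 h4
  simp only [pow_zero] at z
  simp only [pow_one] at o
  rw [show sphAvg (fun _ => (1:ℝ)) r = 1 from sphAvg_const 1 r] at h0
  rw [o] at h1
  refine ⟨by linarith, by linarith, by linarith, by linarith, by linarith⟩

theorem avg_c_poly (e : Fin 3 → ℝ) (he : ∑ i, e i ^ 2 = 1) {r : ℝ} (hr : 0 < r)
    (a0 a1 a2 a3 a4 a5 a6 : ℝ) :
    sphAvg (fun x => a0 + a1 * (cf e x) + a2 * (cf e x) ^ 2 + a3 * (cf e x) ^ 3 +
      a4 * (cf e x) ^ 4 + a5 * (cf e x) ^ 5 + a6 * (cf e x) ^ 6) r =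
      a0 + a2 / 3 + a4 / 5 + a6 / 7 := by
  obtain ⟨h2, h3, h4, h5, h6⟩ := avg_c_vals e he hr
  have o := avg_c_one e hr
  simp only [pow_one] at o
  have c1 : ∀ (a : ℝ) (n : ℕ), ContinuousOn (fun x => a * (cf e x) ^ n) {0}ᶜ :=
    fun a n => continuousOn_const.mul ((cf_cont e).pow n)
  have s0 : ContinuousOn (fun _ : E => a0) {0}ᶜ := continuousOn_const
  have t1 : ContinuousOn (fun x => a1 * cf e x) {0}ᶜ := continuousOn_const.mul (cf_cont e)
  have s1 : ContinuousOn (fun x => a0 + a1 * cf e x) {0}ᶜ := s0.add t1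
  have s2 : ContinuousOn (fun x => a0 + a1 * cf e x + a2 * (cf e x) ^ 2) {0}ᶜ :=
    s1.add (c1 a2 2)
  have s3 : ContinuousOn (fun x => a0 + a1 * cf e x + a2 * (cf e x) ^ 2 + a3 * (cf e x) ^ 3)
    {0}ᶜ := s2.add (c1 a3 3)
  have s4 : ContinuousOn (fun x => a0 + a1 * cf e x + a2 * (cf e x) ^ 2 + a3 * (cf e x) ^ 3 +
    a4 * (cf e x) ^ 4) {0}ᶜ := s3.add (c1 a4 4)
  have s5 : ContinuousOn (fun x => a0 + a1 * cf e x + a2 * (cf e x) ^ 2 + a3 * (cf e x) ^ 3 +
    a4 * (cf e x) ^ 4 + a5 * (cf e x) ^ 5) {0}ᶜ := s4.add (c1 a5 5)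
  rw [sphAvg_add s5 (c1 a6 6) hr, sphAvg_add s4 (c1 a5 5) hr, sphAvg_add s3 (c1 a4 4) hr,
    sphAvg_add s2 (c1 a3 3) hr, sphAvg_add s1 (c1 a2 2) hr, sphAvg_add s0 t1 hr,
    sphAvg_const, sphAvg_mul, sphAvg_mul, sphAvg_mul, sphAvg_mul, sphAvg_mul, sphAvg_mul,
    h2, h3, h4, h5, h6, o]
  ring

end Pool.Agent.U980.PI
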